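import Pool.Agent.Y483.PI.Def

/-!
Alternating sums with values in an abelian group.
-/

namespace Pool.Agent.Y483.PI

open scoped Classical

variable {V M M' : Type*} [AddCommGroup M] [AddCommGroup M']

/-- Alternating sums over the subsets. -/
noncomputable def alt (σ : Finset V) (F : Finset V → M) : M :=
  ∑ U ∈ σ.powerset, ((-1 : ℤ) ^ (σ.card + U.card)) • F U

theorem alt_congr {σ : Finset V} {F F' : Finset V → M} (h : ∀ U, U ⊆ σ → F U = F' U) :
    alt σ F = alt σ F' := by
  apply Finset.sum_congr rfl
  intro U hU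
  rw [h U (Finset.mem_powerset.mp hU)]

theorem alt_insert {σ : Finset V} {a : V} (ha : a ∉ σ) (F : Finset V → M) :
    alt (insert a σ) F = alt σ (fun U => F (insert a U) - F U) := by
  unfold alt
  rw [Finset.sum_powerset_insert ha, ← Finset.sum_add_distrib]
  apply Finset.sum_congr rfl
  intro U hU
  have haU : a ∉ U := fun h => ha (Finset.mem_powerset.mp hU h)
  rw [Finset.card_insert_of_notMem ha, Finset.card_insert_of_notMem haU, smul_sub]
  have e1 : (-1 : ℤ) ^ (σ.card + 1 + U.card) = -((-1 : ℤ) ^ (σ.card + U.card)) := by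
    rw [show σ.card + 1 + U.card = σ.card + U.card + 1 by ring, pow_succ]; ring
  have e2 : (-1 : ℤ) ^ (σ.card + 1 + (U.card + 1)) = (-1 : ℤ) ^ (σ.card + U.card) := by
    rw [show σ.card + 1 + (U.card + 1) = σ.card + U.card + 1 + 1 by ring, pow_succ, pow_succ]; ring
  rw [e1, e2, neg_smul]
  abel

theorem alt_erase {σ : Finset V} {a : V} (ha : a ∈ σ) (F : Finset V → M) :
    alt σ F = alt (σ.erase a) (fun U => F (insert a U) - F U) := by
  conv_lhs => rw [← Finset.insert_erase ha]
  exact alt_insert (Finset.notMem_erase a σ) F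

theorem alt_map (σ : Finset V) (i : V ↪ V) (F : Finset V → M) :
    alt (σ.map i) F = alt σ (fun U => F (U.map i)) := by
  unfold alt
  symm
  refine Finset.sum_bij (fun U _ => U.map i) ?_ ?_ ?_ ?_
  · intro U hU
    rw [Finset.mem_powerset] at *
    exact Finset.map_subset_map.mpr hU
  · intro U _ U' _ h
    exact Finset.map_injective i h
  · intro U hU
    rw [Finset.mem_powerset] at hU
    refine ⟨σ.filter (fun v => i v ∈ U), Finset.mem_powerset.mpr (Finset.filter_subset _ _), ?_⟩
    ext v
    simp only [Finset.mem_map, Finset.mem_filter]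
    constructor
    · rintro ⟨w, ⟨_, hw⟩, rfl⟩
      exact hw
    · intro hv
      obtain ⟨w, hw, rfl⟩ := Finset.mem_map.mp (hU hv)
      exact ⟨w, ⟨hw, hv⟩, rfl⟩
  · intro U _
    simp only [Finset.card_map]

theorem alt_sum {ι : Type*} (σ : Finset V) (Y : Finset ι) (F : ι → Finset V → M) :
    alt σ (fun U => ∑ a ∈ Y, F a U) = ∑ a ∈ Y, alt σ (F a) := by
  unfold alt
  rw [Finset.sum_comm]
  apply Finset.sum_congr rfl
  intro U _
  rw [Finset.smul_sum]

theorem alt_sub (σ : Finset V) (F F' : Finset V → M) :
    alt σ (fun U => F U - F' U) = alt σ F - alt σ F' := by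
  unfold alt
  rw [← Finset.sum_sub_distrib]
  apply Finset.sum_congr rfl
  intro U _
  rw [smul_sub]

theorem map_alt (g : M →+ M') (σ : Finset V) (F : Finset V → M) :
    g (alt σ F) = alt σ (fun U => g (F U)) := by
  unfold alt
  rw [map_sum]
  apply Finset.sum_congr rfl
  intro U _
  rw [map_zsmul]

theorem alt_const {σ : Finset V} (hσ : σ ≠ ∅) (c : M) : alt σ (fun _ => c) = 0 := by
  obtain ⟨a, ha⟩ := Finset.nonempty_iff_ne_empty.mpr hσ
  rw [alt_erase ha]
  unfold alt
  apply Finset.sum_eq_zero
  intro U _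
  rw [sub_self, smul_zero]

theorem alt_empty (F : Finset V → M) : alt ∅ F = F ∅ := by
  unfold alt
  rw [Finset.powerset_empty, Finset.sum_singleton, Finset.card_empty, add_zero, pow_zero, one_smul]

/-- Inversion. -/
theorem alt_inv (σ : Finset V) (F : Finset V → M) : F σ = ∑ U ∈ σ.powerset, alt U F := by
  induction σ using Finset.induction_on generalizing F with
  | empty => rw [Finset.powerset_empty, Finset.sum_singleton, alt_empty]
  | insert a σ ha ih =>
    rw [Finset.sum_powerset_insert ha]
    have h1 : ∀ U ∈ σ.powerset, alt (insert a U) F = alt U (fun W => F (insert a W) - F W) := by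
      intro U hU
      exact alt_insert (fun h => ha (Finset.mem_powerset.mp hU h)) F
    rw [Finset.sum_congr rfl h1, ← ih F, ← ih (fun W => F (insert a W) - F W)]
    abel

end Pool.Agent.Y483.PI
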