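import Pool.Agent.Y483.PI.Def

/-!
The direct sum of the reduced parts: definitions.
-/

namespace Pool.Agent.Y483.PI

open Pool.Agent.Y483 Pool.Agent.Y483.PW CategoryTheory Pointwise

universe w

/-- Each element of `Γ` which preserves `σ` fixes the elements of `σ`. -/
def Rigid (Γ : Type) {V : Type} [Group Γ] [MulAction Γ V] (σ : Finset V) : Prop :=
  ∀ γ : Γ, (∀ v ∈ σ, γ • v ∈ σ) → ∀ v ∈ σ, γ • v = v

variable {Γ N V : Type} [Group Γ] [Group N] [MulAction Γ V]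

theorem supG_smul (s : Sys Γ N V) {σ U : Finset V} (hU : U ⊆ σ) (w : s.supG σ) :
    w.1.right • (U : Set V) = U := by
  ext v
  constructor
  · rintro ⟨u, hu, rfl⟩
    change w.1.right • u ∈ _
    rw [w.2.2 u (hU hu)]
    exact hu
  · intro hv
    exact ⟨v, hv, w.2.2 v (hU hv)⟩

theorem faceFun_mem (s : Sys Γ N V) {σ U : Finset V} (hU : U ⊆ σ) (w : s.supG σ) :
    s.ep U w.1 ∈ s.supG σ := by
  refine ⟨?_, w.2.2⟩
  change s.e _ (s.e _ _) = s.e _ _
  rw [s.inter, Set.inter_eq_right.mpr (Finset.coe_subset.mpr hU)]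

/-- The map `(n, γ) ↦ (e_U n, γ)` of the set `N_σ ⋊ Γ_σ`, `U ⊆ σ`. -/
def faceFun (s : Sys Γ N V) (σ U : Finset V) (hU : U ⊆ σ) (w : s.supG σ) : s.supG σ :=
  ⟨s.ep U w.1, faceFun_mem s hU w⟩

theorem faceFun_mul (s : Sys Γ N V) (σ U : Finset V) (hU : U ⊆ σ) (a b : s.supG σ) :
    faceFun s σ U hU (a * b) = faceFun s σ U hU a * faceFun s σ U hU b := by
  apply Subtype.ext
  apply SemidirectProduct.ext
  · change s.e U (a.1.left * s.φ a.1.right b.1.left) =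
      s.e U a.1.left * s.φ a.1.right (s.e U b.1.left)
    rw [map_mul, s.equivariant, supG_smul s hU a]
  · rfl

/-- The endomorphism `(n, γ) ↦ (e_U n, γ)` of `N_σ ⋊ Γ_σ`, `U ⊆ σ`. -/
def face (s : Sys Γ N V) (σ U : Finset V) (hU : U ⊆ σ) : s.supG σ →* s.supG σ :=
  MonoidHom.mk' (faceFun s σ U hU) (faceFun_mul s σ U hU)

variable (L : GrpCat.{0} ⥤ AddCommGrpCat.{w}) (s : Sys Γ N V)

/-- The group `L(N_σ ⋊ Γ_σ)`. -/
def LS (σ : Finset V) : Type w := L.obj (GrpCat.of (s.supG σ))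

noncomputable instance LS.inst (σ : Finset V) : AddCommGroup (LS L s σ) :=
  inferInstanceAs (AddCommGroup (L.obj (GrpCat.of (s.supG σ))))

/-- The map `L(N_σ ⋊ Γ_σ) → L(N ⋊ Γ)` induced by the inclusion. -/
def push (σ : Finset V) : LS L s σ →+ L.obj (GrpCat.of s.G) := gm L (s.supG σ).subtype

/-- The endomorphism of `L(N_σ ⋊ Γ_σ)` induced by `(n, γ) ↦ (e_U n, γ)`, `U ⊆ σ`. -/
def faceL (σ U : Finset V) (hU : U ⊆ σ) : LS L s σ →+ LS L s σ := gm L (face s σ U hU)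

/-- The elements of `L(N_σ ⋊ Γ_σ)` which are killed by the `e_U`, `U` a proper subset of `σ`. -/
def IsRed (σ : Finset V) (y : LS L s σ) : Prop :=
  ∀ (U : Finset V) (hU : U ⊆ σ), U ≠ σ → faceL L s σ U hU y = 0

/-- The sets `σ i` are in different orbits of `Γ`. -/
def DiffOrb (Γ : Type) {V : Type} [Group Γ] [MulAction Γ V] {k : ℕ} (σ : Fin k → Finset V) :
    Prop :=
  ∀ (i j : Fin k) (γ : Γ), σ j = (σ i).map ⟨fun v => γ • v, MulAction.injective γ⟩ → i = j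

/-- The reduced parts of the groups `L(N_σ ⋊ Γ_σ)`, for rigid finite sets `σ` in different orbits,
form a direct sum in `L(N ⋊ Γ)`. -/
def DirectSum : Prop :=
  ∀ (k : ℕ) (σ : Fin k → Finset V), (∀ i, Rigid Γ (σ i)) → DiffOrb Γ σ →
    ∀ y : ∀ i, LS L s (σ i), (∀ i, IsRed L s (σ i) (y i)) →
      ∑ i, push L s (σ i) (y i) = 0 → ∀ i, y i = 0

end Pool.Agent.Y483.PI
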