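import Pool.Agent.Y483.PI.Main
import Pool.Agent.Y483.PI.DSDef

/-!
The direct sum of the reduced parts.
-/

namespace Pool.Agent.Y483.PI

open Pool.Agent.Y483 Pool.Agent.Y483.PW CategoryTheory Pointwise
open scoped Classical

universe w

section Wts

variable {Γ V : Type} [Group Γ] [MulAction Γ V]

theorem rigid_mv {σ : Finset V} (h : Rigid Γ σ) {γ : Γ} (hγ : mv γ σ = σ) :
    ∀ v ∈ σ, γ • v = v := by
  apply h
  intro v hv
  rw [← hγ, mem_mv, inv_smul_smul]
  exact hv

theorem permNo_rigid {σ : Finset V} (h : Rigid Γ σ) : permNo Γ σ = 1 := by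
  unfold permNo
  rw [Nat.card_eq_one_iff_unique]
  refine ⟨⟨?_⟩, ⟨⟨1, 1, fun v => ?_⟩⟩⟩
  · rintro ⟨p, γ, hγ⟩ ⟨p', γ', hγ'⟩
    apply Subtype.ext
    apply Equiv.ext
    intro v
    apply Subtype.ext
    change (p v).1 = (p' v).1
    rw [← hγ, ← hγ', h γ (fun u hu => by rw [hγ ⟨u, hu⟩]; exact (p _).2) v.1 v.2,
      h γ' (fun u hu => by rw [hγ' ⟨u, hu⟩]; exact (p' _).2) v.1 v.2]
  · rw [one_smul]
    rfl

/-- The indicator of the orbit of a rigid set. -/
theorem exists_ind {τ₀ : Finset V} (h : Rigid Γ τ₀) :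
    ∃ wf : List V → ℤ, (∀ (γ : Γ) (l : List V), wf (l.map (fun v => γ • v)) = wf l) ∧
      wt wf τ₀ = 1 ∧ ∀ τ : Finset V, (∀ γ : Γ, mv γ τ₀ ≠ τ) → wt wf τ = 0 := by
  let P : Finset V → Prop := fun τ => ∃ γ : Γ, mv γ τ₀ = τ
  have hP : ∀ (γ : Γ) (τ : Finset V), P (mv γ τ) ↔ P τ := by
    intro γ τ
    constructor
    · rintro ⟨δ, hδ⟩
      exact ⟨γ⁻¹ * δ, by rw [mv_mul, hδ, ← mv_mul, inv_mul_cancel, mv_one]⟩
    · rintro ⟨δ, hδ⟩
      exact ⟨γ * δ, by rw [mv_mul, hδ]⟩
  have hord : ∀ (τ : Finset V) (l : List V), l ∈ ords τ → l.toFinset = τ := by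
    intro τ l hl
    rw [mem_ords] at hl
    ext v
    rw [List.mem_toFinset, ← Finset.mem_val, ← hl, Multiset.mem_coe]
  refine ⟨fun l => if Good Γ l ∧ P l.toFinset then 1 else 0, ?_, ?_, ?_⟩
  · intro γ l
    change (if Good Γ _ ∧ P _ then (1 : ℤ) else 0) = (if Good Γ l ∧ P l.toFinset then 1 else 0)
    rw [toFinset_map_smul]
    simp only [good_map, hP]
  · rw [wt_ords τ₀.card τ₀ _ rfl]
    have h1 : ∀ l ∈ ords τ₀, (if Good Γ l ∧ P l.toFinset then (1 : ℤ) else 0) =
        if Good Γ l then 1 else 0 := by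
      intro l hl
      rw [hord τ₀ l hl]
      have h2 : P τ₀ := ⟨1, mv_one τ₀⟩
      simp only [h2, and_true]
    rw [Finset.sum_congr rfl h1, ← Finset.sum_filter, Finset.sum_const, card_good,
      permNo_rigid h, one_smul]
  · intro τ hτ
    rw [wt_ords τ.card τ _ rfl]
    apply Finset.sum_eq_zero
    intro l hl
    rw [hord τ l hl, if_neg]
    rintro ⟨-, γ, hγ⟩
    exact hτ γ hγ

end Wts

theorem alt_top {V M : Type*} [AddCommGroup M] {σ : Finset V} {F : Finset V → M}
    (h : ∀ U, U ⊆ σ → U ≠ σ → F U = 0) : alt σ F = F σ := by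
  unfold alt
  rw [Finset.sum_eq_single σ]
  · rw [← two_mul, pow_mul, neg_one_sq, one_pow, one_smul]
  · intro U hU hne
    rw [h U (Finset.mem_powerset.mp hU) hne, smul_zero]
  · intro hσ
    exact absurd (Finset.mem_powerset.mpr subset_rfl) hσ

section Cod

variable {Γ N V : Type} [Group Γ] [Group N] [MulAction Γ V] (s : Sys Γ N V)

/-- The corestriction. -/
def cod {K : Type} [Group K] {σ : Finset V} (f : K →* s.G) (hf : ∀ l, f l ∈ s.supG σ) :
    K →* s.supG σ := f.codRestrict (s.supG σ) hf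

theorem fix_of {K : Type} [Group K] {σ : Finset V} {f : K →* s.G}
    (hf : ∀ l, f l ∈ s.supG σ) : s.Fix f σ := fun l v hv => (hf l).2 v hv

theorem cut_mem {K : Type} [Group K] {σ : Finset V} {f : K →* s.G}
    (hf : ∀ l, f l ∈ s.supG σ) {U : Finset V} (hU : U ⊆ σ) (l : K) :
    s.cutT f (U : Set V) l ∈ s.supG σ := by
  rw [s.cutT_apply f _ ((fix_of s hf).smul s hU)]
  refine ⟨?_, (hf l).2⟩
  change s.e _ (s.e _ _) = s.e _ _
  rw [s.inter, Set.inter_eq_right.mpr (Finset.coe_subset.mpr hU)]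

theorem cut_self {K : Type} [Group K] {σ : Finset V} {f : K →* s.G}
    (hf : ∀ l, f l ∈ s.supG σ) : s.cutT f (σ : Set V) = f := by
  ext1 l
  rw [s.cutT_apply f _ ((fix_of s hf).smul s subset_rfl)]
  apply SemidirectProduct.ext
  · exact (hf l).1
  · rfl

variable (x : V)

theorem incl_inj : Function.Injective (s.incl x) := by
  intro a b h
  have h1 : (s.incl x a).left = (s.incl x b).left := by rw [h]
  have h2 : (s.incl x a).right = (s.incl x b).right := by rw [h]
  apply SemidirectProduct.ext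
  · exact h1
  · exact Subtype.ext h2

theorem incl_lbl {K : Type} [Group K] {σ : Finset V} {f : K →* s.G}
    (hf : s.Fix f σ) {a : MulAction.orbit Γ x} (ha : a.1 ∈ σ) :
    (s.incl x).comp (s.lbl x f a) =
      conjHom f (SemidirectProduct.inr (Sys.tt x a)⁻¹ : s.G) := by
  ext1 l
  unfold conjHom
  rw [MonoidHom.comp_apply, MonoidHom.comp_apply]
  apply SemidirectProduct.ext
  · change (s.lbl x f a l).left =
      ((SemidirectProduct.inr (Sys.tt x a)⁻¹ : s.G) * f l *
        (SemidirectProduct.inr (Sys.tt x a)⁻¹ : s.G)⁻¹).left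
    rw [s.lbl_left x (hf.orb s x ha)]
    simp
  · change (s.lbl x f a l).right.1 = ((SemidirectProduct.inr (Sys.tt x a)⁻¹ : s.G) * f l *
        (SemidirectProduct.inr (Sys.tt x a)⁻¹ : s.G)⁻¹).right
    rw [s.lbl_right x (hf.orb s x ha)]
    simp

theorem lbl_nat {K : Type} [Group K] {σ : Finset V} {f : K →* s.G}
    (hf : ∀ l, f l ∈ s.supG σ) {a : MulAction.orbit Γ x} (ha : a.1 ∈ σ) :
    s.lbl x f a = (s.lbl x (s.supG σ).subtype a).comp (cod s f hf) := by
  ext1 l
  have h1 : s.Fix (s.supG σ).subtype σ := fun l v hv => l.2.2 v hv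
  rw [MonoidHom.comp_apply, s.lbl_apply x ((fix_of s hf).orb s x ha),
    s.lbl_apply x (h1.orb s x ha)]
  rfl

/-- The first family of restrictions. -/
theorem cut1 {K : Type} [Group K] {σ : Finset V} {f : K →* s.G}
    (hf : ∀ l, f l ∈ s.supG σ) {a : MulAction.orbit Γ x} (ha : a.1 ∈ σ) {U : Finset V}
    (hU : U ⊆ σ.erase a.1) :
    (s.sub x).cutT (s.lbl x f a) ((U.map (Sys.tm x a) : Finset V) : Set V) =
      (s.lbl x (s.supG σ).subtype a).comp (cod s (s.cutT f ((insert a.1 U : Finset V) : Set V))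
        (cut_mem s hf (Finset.insert_subset ha (hU.trans (Finset.erase_subset _ _))))) := by
  rw [← s.k1 x (fix_of s hf) ha hU]
  exact lbl_nat s x _ ha

/-- The second family of restrictions. -/
theorem cut2 {K : Type} [Group K] {σ : Finset V} {f : K →* s.G}
    (hf : ∀ l, f l ∈ s.supG σ) {a : MulAction.orbit Γ x} (ha : a.1 ∈ σ) {U : Finset V}
    (hU : U ⊆ σ.erase a.1) :
    (s.sub x).cutT ((s.kill x).comp (s.lbl x f a)) ((U.map (Sys.tm x a) : Finset V) : Set V) =
      (s.lbl x (s.supG σ).subtype a).comp (cod s (s.cutT f (U : Set V))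
        (cut_mem s hf (hU.trans (Finset.erase_subset _ _)))) := by
  rw [← lbl_nat s x _ ha]
  have h1 := s.k5 x (fix_of s hf) ha hU
  have h2 := incl_lbl s x (f := s.cutT f (U : Set V)) (σ := σ)
    (fix_of s (cut_mem s hf (hU.trans (Finset.erase_subset _ _)))) ha
  rw [← h2] at h1
  ext1 l
  exact incl_inj s x (DFunLike.congr_fun h1 l)

variable {E : GrpCat.{0} ⥤ AddCommGrpCat.{w}}

theorem bas_red {K : Type} [Group K] {σ : Finset V} {f : K →* s.G}
    (hf : ∀ l, f l ∈ s.supG σ) {y : E.obj (GrpCat.of K)}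
    (hy : ∀ (U : Finset V) (hU : U ⊆ σ), U ≠ σ →
      gm E (cod s (s.cutT f (U : Set V)) (cut_mem s hf hU)) y = 0) :
    bas E s f σ y = gm E f y := by
  unfold bas
  rw [alt_top, cut_self s hf]
  intro U hU hne
  have h1 : s.cutT f (U : Set V) = (s.supG σ).subtype.comp
      (cod s (s.cutT f (U : Set V)) (cut_mem s hf hU)) := by
    ext1 l
    rfl
  rw [h1, gm_comp, hy U hU hne, map_zero]

theorem cur_red {K : Type} [Group K] {σ : Finset V} {f : K →* s.G}
    (hf : ∀ l, f l ∈ s.supG σ) {y : E.obj (GrpCat.of K)}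
    (hy : ∀ (U : Finset V) (hU : U ⊆ σ), U ≠ σ →
      gm E (cod s (s.cutT f (U : Set V)) (cut_mem s hf hU)) y = 0)
    {a : MulAction.orbit Γ x} (ha : a.1 ∈ σ) : cur E s x f σ y a = gm E (s.lbl x f a) y := by
  unfold cur bas
  rw [alt_map, alt_map]
  have h1 : alt (σ.erase a.1) (fun U => gm E ((s.sub x).cutT ((s.kill x).comp (s.lbl x f a))
      ((U.map (Sys.tm x a) : Finset V) : Set V)) y) = alt (σ.erase a.1) (fun _ => 0) := by
    apply alt_congr
    intro U hU
    rw [cut2 s x hf ha hU, gm_comp, hy U (hU.trans (Finset.erase_subset _ _)), map_zero]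
    rintro rfl
    exact Finset.notMem_erase _ _ (hU ha)
  have h2 : alt (σ.erase a.1) (fun _ => (0 : E.obj (GrpCat.of (s.sub x).G))) = 0 := by
    unfold alt
    exact Finset.sum_eq_zero fun U _ => smul_zero _
  rw [h1, h2, sub_zero, alt_top]
  · rw [cut1 s x hf ha subset_rfl, ← lbl_nat s x _ ha]
    have h3 : insert a.1 (σ.erase a.1) = σ := Finset.insert_erase ha
    rw [h3, cut_self s hf]
  · intro U hU hne
    have hne' : insert a.1 U ≠ σ := by
      intro h
      apply hne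
      rw [← h, Finset.erase_insert]
      exact fun h2 => Finset.notMem_erase _ _ (hU h2)
    rw [cut1 s x hf ha hU, gm_comp,
      hy (insert a.1 U) (Finset.insert_subset ha (hU.trans (Finset.erase_subset _ _))) hne',
      map_zero]

end Cod

theorem WW_id {Γ N V : Type} [Group Γ] [Group N] [MulAction Γ V] (s : Sys Γ N V)
    {E : GrpCat.{0} ⥤ AddCommGrpCat.{w}} (C : Finset V → Prop)
    {z : E.obj (GrpCat.of s.G)} (hz : z ∈ WW s (𝟙 E) C) : z = 0 := by
  have h : WW s (𝟙 E) C ≤ ⊥ := by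
    apply (AddSubgroup.closure_le _).mpr
    rintro y ⟨L, _, f, σ, u, _, _, hu, rfl⟩
    have hu2 : u = 0 := hu
    rw [hu2, map_zero]
    exact AddSubgroup.zero_mem _
  exact h hz

end Pool.Agent.Y483.PI
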