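import Pool.Agent.Y483.PI.DS

/-!
The direct sum of the reduced parts: proof.
-/

namespace Pool.Agent.Y483.PI

open Pool.Agent.Y483 Pool.Agent.Y483.PW CategoryTheory Pointwise
open scoped Classical

universe w

section Geo

variable {Γ V : Type} [Group Γ] [MulAction Γ V] (x : V)

/-- The remaining part of `σ`, translated. -/
noncomputable def tau (σ : Finset V) (a : MulAction.orbit Γ x) : Finset V :=
  (σ.erase a.1).map (Sys.tm x a)

theorem mem_tau {σ : Finset V} {a : MulAction.orbit Γ x} {u : V} :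
    u ∈ tau x σ a ↔ Sys.tt x a • u ∈ σ.erase a.1 := by
  unfold tau
  rw [Finset.mem_map]
  constructor
  · rintro ⟨v, hv, rfl⟩
    change Sys.tt x a • ((Sys.tt x a)⁻¹ • v) ∈ _
    rwa [smul_inv_smul]
  · intro h
    exact ⟨_, h, inv_smul_smul _ _⟩

theorem tt_inv (a : MulAction.orbit Γ x) : (Sys.tt (Γ := Γ) x a)⁻¹ • a.1 = x := by
  rw [inv_smul_eq_iff, Sys.tt_smul]

theorem move {σ : Finset V} {a b : MulAction.orbit Γ x} (hb : b.1 ∈ σ)
    (γ : MulAction.stabilizer Γ x) (h : ∀ u ∈ tau x σ a, γ.1 • u ∈ tau x σ b) :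
    ∀ w ∈ σ, (Sys.tt x b * γ.1 * (Sys.tt x a)⁻¹) • w ∈ σ := by
  intro w hw
  rw [mul_smul, mul_smul]
  by_cases hwa : w = a.1
  · have h1 : γ.1 • x = x := γ.2
    rw [hwa, tt_inv, h1, Sys.tt_smul]
    exact hb
  · have h1 : (Sys.tt x a)⁻¹ • w ∈ tau x σ a := by
      rw [mem_tau, smul_inv_smul]
      exact Finset.mem_erase.mpr ⟨hwa, hw⟩
    have h2 := h _ h1
    rw [mem_tau] at h2
    exact Finset.mem_of_mem_erase h2

theorem rigid_tau {σ : Finset V} (hσ : Rigid Γ σ) {a : MulAction.orbit Γ x} (ha : a.1 ∈ σ) :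
    Rigid (MulAction.stabilizer Γ x) (tau x σ a) := by
  intro γ hγ u hu
  have h1 := hσ _ (move x ha γ hγ) (Sys.tt x a • u) (Finset.mem_of_mem_erase (mem_tau x |>.mp hu))
  rw [mul_smul, mul_smul, inv_smul_smul] at h1
  exact MulAction.injective _ h1

theorem orbit_tau {σ : Finset V} (hσ : Rigid Γ σ) {a b : MulAction.orbit Γ x} (ha : a.1 ∈ σ)
    (hb : b.1 ∈ σ) (γ : MulAction.stabilizer Γ x) (h : mv γ (tau x σ a) = tau x σ b) : a = b := by
  have h0 : ∀ u ∈ tau x σ a, γ.1 • u ∈ tau x σ b := by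
    intro u hu
    rw [← h, mem_mv]
    change γ⁻¹ • (γ • u) ∈ _
    rwa [inv_smul_smul]
  have h1 := hσ _ (move x hb γ h0) a.1 ha
  have h2 : γ.1 • x = x := γ.2
  rw [mul_smul, mul_smul, tt_inv, h2, Sys.tt_smul] at h1
  exact (Subtype.ext h1).symm

end Geo

section Mem

variable {Γ N V : Type} [Group Γ] [Group N] [MulAction Γ V] (s : Sys Γ N V) (x : V)

theorem insert_tau {σ : Finset V} {a : MulAction.orbit Γ x} (ha : a.1 ∈ σ) :
    insert x ((tau x σ a : Finset V) : Set V) = (Sys.tt (Γ := Γ) x a)⁻¹ • (σ : Set V) := by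
  unfold tau
  rw [Sys.insert_tm, Finset.insert_erase ha]

theorem lbl_mem {K : Type} [Group K] {σ : Finset V} {f : K →* s.G}
    (hf : ∀ l, f l ∈ s.supG σ) {a : MulAction.orbit Γ x} (ha : a.1 ∈ σ) (l : K) :
    s.lbl x f a l ∈ (s.sub x).supG (tau x σ a) := by
  refine ⟨?_, ?_⟩
  · change s.e (insert x _) (s.lbl x f a l).left = (s.lbl x f a l).left
    rw [s.lbl_left x ((fix_of s hf).orb s x ha), insert_tau x ha, ← s.equivariant, (hf l).1]
  · exact s.fix_lbl x (fix_of s hf) ha (Finset.erase_subset _ _) l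

/-- The homomorphism back. -/
theorem back_mem {σ : Finset V} {a : MulAction.orbit Γ x} (ha : a.1 ∈ σ)
    (w : (s.sub x).supG (tau x σ a)) :
    conjHom ((s.incl x).comp ((s.sub x).supG (tau x σ a)).subtype)
      (SemidirectProduct.inr (Sys.tt x a) : s.G) w ∈ s.supG σ := by
  have hl : (conjHom ((s.incl x).comp ((s.sub x).supG (tau x σ a)).subtype)
      (SemidirectProduct.inr (Sys.tt x a) : s.G) w).left = s.φ (Sys.tt x a) w.1.left := by
    change ((SemidirectProduct.inr (Sys.tt x a) : s.G) * s.incl x w.1 *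
      (SemidirectProduct.inr (Sys.tt x a) : s.G)⁻¹).left = _
    simp
    rfl
  have hr : (conjHom ((s.incl x).comp ((s.sub x).supG (tau x σ a)).subtype)
      (SemidirectProduct.inr (Sys.tt x a) : s.G) w).right =
        Sys.tt x a * w.1.right.1 * (Sys.tt x a)⁻¹ := by
    change ((SemidirectProduct.inr (Sys.tt x a) : s.G) * s.incl x w.1 *
      (SemidirectProduct.inr (Sys.tt x a) : s.G)⁻¹).right = _
    simp
    rfl
  refine ⟨?_, ?_⟩
  · rw [hl]
    have h1 : s.e (insert x ((tau x σ a : Finset V) : Set V)) w.1.left = w.1.left := w.2.1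
    rw [insert_tau x ha] at h1
    conv_rhs => rw [← h1, s.equivariant, smul_inv_smul]
  · intro u hu
    rw [hr, mul_smul, mul_smul]
    by_cases hua : u = a.1
    · have h2 : w.1.right.1 • x = x := w.1.right.2
      rw [hua, tt_inv, h2, Sys.tt_smul]
    · have h1 : (Sys.tt x a)⁻¹ • u ∈ tau x σ a := by
        rw [mem_tau, smul_inv_smul]
        exact Finset.mem_erase.mpr ⟨hua, hu⟩
      have h2 : w.1.right.1 • ((Sys.tt x a)⁻¹ • u) = (Sys.tt x a)⁻¹ • u := w.2.2 _ h1
      rw [h2, smul_inv_smul]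

theorem back_lbl {K : Type} [Group K] {σ : Finset V} {f : K →* s.G}
    (hf : ∀ l, f l ∈ s.supG σ) {a : MulAction.orbit Γ x} (ha : a.1 ∈ σ) :
    (cod s (conjHom ((s.incl x).comp ((s.sub x).supG (tau x σ a)).subtype)
      (SemidirectProduct.inr (Sys.tt x a) : s.G)) (back_mem s x ha)).comp
        (cod (s.sub x) (s.lbl x f a) (lbl_mem s x hf ha)) = cod s f hf := by
  ext1 l
  apply Subtype.ext
  change (SemidirectProduct.inr (Sys.tt x a) : s.G) * s.incl x (s.lbl x f a l) *
    (SemidirectProduct.inr (Sys.tt x a) : s.G)⁻¹ = f l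
  have h1 := DFunLike.congr_fun (incl_lbl s x (fix_of s hf) ha) l
  have h2 : s.incl x (s.lbl x f a l) = (SemidirectProduct.inr (Sys.tt x a)⁻¹ : s.G) * f l *
    (SemidirectProduct.inr (Sys.tt x a)⁻¹ : s.G)⁻¹ := h1
  rw [h2, map_inv]
  group

variable {E : GrpCat.{0} ⥤ AddCommGrpCat.{w}}

theorem pair_cur (wf : List V → ℤ) {K : Type} [Group K] {σ : Finset V} {f : K →* s.G}
    (hf : s.Fix f σ) (y : E.obj (GrpCat.of K)) {a : MulAction.orbit Γ x} (ha : a.1 ∈ σ)
    {m : ℕ} (hm : σ.card = m + 1) :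
    (cur E s x f σ y a, wt wf (tau x σ a) • cur E s x f σ y a) ∈
      PM E (s.sub x) (fun _ => True) wf m := by
  have hcard : (tau x σ a).card ≤ m := by
    unfold tau
    rw [Finset.card_map, Finset.card_erase_of_mem ha]
    omega
  have hfix := s.fix_lbl x hf ha (Finset.erase_subset a.1 σ)
  unfold cur
  rw [smul_sub, ← Prod.mk_sub_mk]
  apply AddSubgroup.sub_mem
  · exact AddSubgroup.subset_closure ⟨K, inferInstance, _, _, y, hfix, trivial, hcard, rfl⟩
  · exact AddSubgroup.subset_closure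
      ⟨K, inferInstance, _, _, y, s.fix_kill x hfix, trivial, hcard, rfl⟩

theorem gm_id (E : GrpCat.{0} ⥤ AddCommGrpCat.{w}) {K : Type} [Group K]
    (y : E.obj (GrpCat.of K)) : gm E (MonoidHom.id K) y = y := by
  unfold gm
  have h : GrpCat.ofHom (MonoidHom.id K) = 𝟙 (GrpCat.of K) := rfl
  rw [h, E.map_id]
  rfl

end Mem

theorem inj_red {N V : Type} [Group N] {E : GrpCat.{0} ⥤ AddCommGrpCat.{w}}
    (hE : HasPTI E) (hEi : InnTriv E) (n : ℕ) :
    ∀ (Γ : Type) [Group Γ] [MulAction Γ V] (s : Sys Γ N V) (σ : Finset V), σ.card = n →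
      Rigid Γ σ → ∀ (K : Type) [Group K] (f : K →* s.G) (hf : ∀ l, f l ∈ s.supG σ)
      (y : E.obj (GrpCat.of K)), (∀ (U : Finset V) (hU : U ⊆ σ), U ≠ σ →
        gm E (cod s (s.cutT f (U : Set V)) (cut_mem s hf hU)) y = 0) →
      gm E f y = 0 → gm E (cod s f hf) y = 0 := by
  induction n with
  | zero =>
    intro Γ _ _ s σ hn _ K _ f hf y _ h0
    have hσ : σ = ∅ := Finset.card_eq_zero.mp hn
    subst hσ
    have hr : ∀ w : s.G, ee s w ∈ s.supG (∅ : Finset V) := by
      intro w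
      unfold ee
      rw [s.cutT_apply (MonoidHom.id s.G) _ (s.smul_empty' (MonoidHom.id s.G))]
      refine ⟨?_, fun v hv => absurd hv (Finset.notMem_empty v)⟩
      change s.e _ (s.e _ _) = s.e _ _
      rw [s.inter, Set.inter_self]
    have h1 : cod s f hf = (cod s (ee s) hr).comp f := by
      ext1 l
      apply Subtype.ext
      change f l = ee s (f l)
      unfold ee
      rw [s.cutT_apply (MonoidHom.id s.G) _ (s.smul_empty' (MonoidHom.id s.G))]
      apply SemidirectProduct.ext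
      · exact (hf l).1.symm
      · rfl
    rw [h1, gm_comp, h0, map_zero]
  | succ n ih =>
    intro Γ _ _ s σ hn hσ K _ f hf y hy h0
    have hne : σ.Nonempty := by
      rw [← Finset.card_pos]
      omega
    obtain ⟨x, hx⟩ := hne
    let a₀ : MulAction.orbit Γ x := ⟨x, MulAction.mem_orbit_self x⟩
    have ha₀ : a₀.1 ∈ σ := hx
    obtain ⟨M, _, Φ, ι, hι, hΦ⟩ := hE s.G (MulAction.orbit Γ x) (s.sub x).G (s.pairC x)
    have hb := tr_bas s x (𝟙 E) (Φ := Φ) (ι := ι) hΦ (fix_of s hf) y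
    have hb1 : Φ (bas E s f σ y) = ι (∑ a ∈ Sys.yy (Γ := Γ) x σ, cur E s x f σ y a) := hb
    rw [bas_red s hf hy, h0, map_zero] at hb1
    have hsum : ∑ a ∈ Sys.yy (Γ := Γ) x σ, cur E s x f σ y a = 0 := by
      apply hι
      rw [map_zero]
      exact hb1.symm
    obtain ⟨wf, hw1, hw2, hw3⟩ := exists_ind (rigid_tau x hσ ha₀)
    have hz := main_ind hEi hE (𝟙 E) n (MulAction.stabilizer Γ x) (s.sub x) (fun _ => True)
      (fun _ _ _ => trivial) wf hw1
      (∑ a ∈ Sys.yy (Γ := Γ) x σ, (cur E s x f σ y a,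
        wt wf (tau x σ a) • cur E s x f σ y a))
      (AddSubgroup.sum_mem _ fun a ha => pair_cur s x wf (fix_of s hf) y
        ((Sys.mem_yy x).mp ha) hn) (by
          rw [Prod.fst_sum]
          change ((𝟙 E : E ⟶ E).app (GrpCat.of (s.sub x).G)).hom
            (∑ a ∈ Sys.yy (Γ := Γ) x σ, cur E s x f σ y a) = 0
          rw [hsum, map_zero])
    have hz2 := WW_id (s.sub x) _ hz
    rw [Prod.snd_sum, Finset.sum_eq_single a₀] at hz2
    · have h1 : cur E s x f σ y a₀ = 0 := by
        have h2 : wt wf (tau x σ a₀) • cur E s x f σ y a₀ = 0 := hz2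
        rwa [hw2, one_smul] at h2
      rw [cur_red s x hf hy ha₀] at h1
      have h2 := ih (MulAction.stabilizer Γ x) (s.sub x) (tau x σ a₀) (by
          unfold tau
          rw [Finset.card_map, Finset.card_erase_of_mem ha₀, hn, Nat.add_sub_cancel])
        (rigid_tau x hσ ha₀) K (s.lbl x f a₀) (lbl_mem s x hf ha₀) y ?_ h1
      · rw [← back_lbl s x hf ha₀, gm_comp, h2, map_zero]
      · intro U' hU' hne'
        obtain ⟨U, hU, rfl⟩ := Finset.subset_map_iff.mp hU'
        have hneU : insert a₀.1 U ≠ σ := by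
          intro h
          apply hne'
          unfold tau
          congr 1
          rw [← h, Finset.erase_insert]
          exact fun h2 => Finset.notMem_erase _ _ (hU h2)
        have hins : insert a₀.1 U ⊆ σ :=
          Finset.insert_subset ha₀ (hU.trans (Finset.erase_subset _ _))
        have h3 : cod (s.sub x) ((s.sub x).cutT (s.lbl x f a₀)
            ((U.map (Sys.tm x a₀) : Finset V) : Set V))
              (cut_mem (s.sub x) (lbl_mem s x hf ha₀) hU') =
            (cod (s.sub x) (s.lbl x (s.supG σ).subtype a₀)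
              (lbl_mem s x (fun l => l.2) ha₀)).comp
              (cod s (s.cutT f ((insert a₀.1 U : Finset V) : Set V)) (cut_mem s hf hins)) := by
          ext1 l
          apply Subtype.ext
          exact DFunLike.congr_fun (cut1 s x hf ha₀ hU) l
        rw [h3, gm_comp, hy _ hins hneU, map_zero]
    · intro a ha hne2
      have ha' : a.1 ∈ σ := (Sys.mem_yy x).mp ha
      change wt wf (tau x σ a) • cur E s x f σ y a = 0
      rw [hw3 (tau x σ a), zero_smul]
      intro γ hγ
      exact hne2 (orbit_tau x hσ ha₀ ha' γ hγ).symm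
    · intro h
      exact absurd ((Sys.mem_yy x).mpr ha₀) h

theorem directSum0 {Γ N V : Type} [Group Γ] [Group N] [MulAction Γ V]
    {E : GrpCat.{0} ⥤ AddCommGrpCat.{w}} (hE : HasPTI E) (hEi : InnTriv E) (s : Sys Γ N V)
    (k : ℕ) (σ : Fin k → Finset V) (hrig : ∀ i, Rigid Γ (σ i)) (horb : DiffOrb Γ σ)
    (y : ∀ i, E.obj (GrpCat.of (s.supG (σ i))))
    (hy : ∀ i (U : Finset V) (hU : U ⊆ σ i), U ≠ σ i → gm E (face s (σ i) U hU) (y i) = 0)
    (hsum : ∑ i, gm E (s.supG (σ i)).subtype (y i) = 0) (i : Fin k) : y i = 0 := by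
  have hcod : ∀ (j : Fin k) (U : Finset V) (hU : U ⊆ σ j),
      cod s (s.cutT (s.supG (σ j)).subtype (U : Set V)) (cut_mem s (fun l => l.2) hU) =
        face s (σ j) U hU := by
    intro j U hU
    ext1 l
    apply Subtype.ext
    exact s.cutT_apply _ _ ((fix_of s (fun l : s.supG (σ j) => l.2)).smul s hU) l
  have hred : ∀ (j : Fin k) (U : Finset V) (hU : U ⊆ σ j), U ≠ σ j →
      gm E (cod s (s.cutT (s.supG (σ j)).subtype (U : Set V))
        (cut_mem s (fun l => l.2) hU)) (y j) = 0 := by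
    intro j U hU hne
    rw [hcod j U hU]
    exact hy j U hU hne
  have hbas : ∀ j, bas E s (s.supG (σ j)).subtype (σ j) (y j) =
      gm E (s.supG (σ j)).subtype (y j) :=
    fun j => bas_red s (fun l => l.2) (hred j)
  obtain ⟨wf, hw1, hw2, hw3⟩ := exists_ind (hrig i)
  have hz := main_ind hEi hE (𝟙 E) (Finset.univ.sup fun j => (σ j).card) Γ s (fun _ => True)
    (fun _ _ _ => trivial) wf hw1
    (∑ j, (bas E s (s.supG (σ j)).subtype (σ j) (y j),
      wt wf (σ j) • bas E s (s.supG (σ j)).subtype (σ j) (y j)))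
    (AddSubgroup.sum_mem _ fun j _ => AddSubgroup.subset_closure
      ⟨s.supG (σ j), inferInstance, (s.supG (σ j)).subtype, σ j, y j,
        fix_of s (fun l => l.2), trivial,
        Finset.le_sup (f := fun j => (σ j).card) (Finset.mem_univ j), rfl⟩) (by
      rw [Prod.fst_sum]
      change ((𝟙 E : E ⟶ E).app (GrpCat.of s.G)).hom
        (∑ j, bas E s (s.supG (σ j)).subtype (σ j) (y j)) = 0
      rw [Finset.sum_congr rfl fun j _ => hbas j, hsum, map_zero])
  have hz2 := WW_id s _ hz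
  rw [Prod.snd_sum, Finset.sum_eq_single i] at hz2
  · have h1 : gm E (s.supG (σ i)).subtype (y i) = 0 := by
      have h2 : wt wf (σ i) • bas E s (s.supG (σ i)).subtype (σ i) (y i) = 0 := hz2
      rwa [hw2, one_smul, hbas] at h2
    have h2 := inj_red hE hEi (σ i).card Γ s (σ i) rfl (hrig i) (s.supG (σ i))
      (s.supG (σ i)).subtype (fun l => l.2) (y i) (hred i) h1
    have h3 : cod s (s.supG (σ i)).subtype (fun l => l.2) = MonoidHom.id (s.supG (σ i)) := by
      ext1 l
      rfl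
    rw [h3, gm_id] at h2
    exact h2
  · intro j _ hne
    change wt wf (σ j) • bas E s (s.supG (σ j)).subtype (σ j) (y j) = 0
    rw [hw3 (σ j), zero_smul]
    intro γ hγ
    exact hne (horb i j γ hγ.symm).symm
  · intro h
    exact absurd (Finset.mem_univ i) h

/-- **The direct sum.** -/
theorem directSum {Γ N V : Type} [Group Γ] [Group N] [MulAction Γ V]
    {E : GrpCat.{0} ⥤ AddCommGrpCat.{w}} (hE : HasPTI E) (hEi : InnTriv E) (s : Sys Γ N V) :
    DirectSum E s :=
  fun k σ hrig horb y hy hsum i => directSum0 hE hEi s k σ hrig horb y hy hsum i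

end Pool.Agent.Y483.PI
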