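import Pool.Agent.Y483.PI.DS2
import Pool.Agent.Y477.IW.LInner

/-!
Inner automorphisms act trivially on the L-groups of group rings.
-/

namespace Pool.Agent.Y483.PI

open Pool.Agent.Y477.IW CategoryTheory

theorem innTriv_lgr (A : Type) [Ring A] [StarRing A] (ε : ℤˣ) : InnTriv (lgr A ε) := by
  intro G _ g x
  have h := lgr_inner A ε (GrpCat.of G) g
  unfold gm
  rw [h]
  rfl

end Pool.Agent.Y483.PI
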