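import Pool.Agent.Y483.PW.Def

/-!
Functors from groups to abelian groups: images, kernels, and transfers along pairs of cocycles.
-/

namespace Pool.Agent.Y483.PI

open Pool.Agent.Y483 Pool.Agent.Y483.PW CategoryTheory

universe w

/-- The map induced by a homomorphism of groups. -/
def gm (H : GrpCat.{0} ⥤ AddCommGrpCat.{w}) {G K : Type} [Group G] [Group K] (f : G →* K) :
    H.obj (GrpCat.of G) →+ H.obj (GrpCat.of K) := (H.map (GrpCat.ofHom f)).hom

/-- Inner automorphisms act trivially. -/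
def InnTriv (H : GrpCat.{0} ⥤ AddCommGrpCat.{w}) : Prop :=
  ∀ (G : Type) [Group G] (g : G) (x : H.obj (GrpCat.of G)), gm H (MulAut.conj g).toMonoidHom x = x

/-- The image of `H(K)` in `H(G)` for a subgroup `K` of `G`. -/
def im (H : GrpCat.{0} ⥤ AddCommGrpCat.{w}) {G : Type} [Group G] (K : Subgroup G) :
    AddSubgroup (H.obj (GrpCat.of G)) := (gm H K.subtype).range

/-- The image in `H(G)` of the kernel of `α` on `H(K)` for a subgroup `K` of `G`. -/
def imKer {H L : GrpCat.{0} ⥤ AddCommGrpCat.{w}} (α : H ⟶ L) {G : Type} [Group G]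
    (K : Subgroup G) : AddSubgroup (H.obj (GrpCat.of G)) :=
  ((α.app (GrpCat.of K)).hom.ker).map (gm H K.subtype)

/-- A set of finite subsets of `V` closed under passing to subsets and invariant under `Γ`. -/
structure IsFam (Γ : Type) {V : Type} [Group Γ] [MulAction Γ V] (C : Set (Finset V)) : Prop where
  sub : ∀ σ ∈ C, ∀ τ ⊆ σ, τ ∈ C
  inv : ∀ σ ∈ C, ∀ γ : Γ, σ.map ⟨fun v => γ • v, MulAction.injective γ⟩ ∈ C

/-- The number of the permutations of `σ` which are restrictions of elements of `Γ`. -/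
noncomputable def permNo (Γ : Type) {V : Type} [Group Γ] [MulAction Γ V] (σ : Finset V) : ℕ :=
  Nat.card {p : Equiv.Perm {v : V // v ∈ σ} // ∃ γ : Γ, ∀ v, γ • v.1 = (p v).1}

section Formula

variable {Γ N V : Type} [Group Γ] [Group N] [MulAction Γ V]

/-- The subgroup of `H(N ⋊ Γ)` generated by the images of the `H(N_σ ⋊ Γ_σ)`, `σ ∈ C`. -/
def gen (H : GrpCat.{0} ⥤ AddCommGrpCat.{w}) (s : Sys Γ N V) (C : Set (Finset V)) :
    AddSubgroup (H.obj (GrpCat.of s.G)) := ⨆ σ ∈ C, im H (s.supG σ)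

/-- The subgroup of `H(N ⋊ Γ)` generated by the images of the kernels of `α` for the groups
`N_σ ⋊ Γ_σ`, `σ ∈ C`. -/
def genKer {H L : GrpCat.{0} ⥤ AddCommGrpCat.{w}} (α : H ⟶ L) (s : Sys Γ N V)
    (C : Set (Finset V)) : AddSubgroup (H.obj (GrpCat.of s.G)) := ⨆ σ ∈ C, imKer α (s.supG σ)

/-- The kernel formula for the natural transformations to `L`. -/
def KerFormula (L : GrpCat.{0} ⥤ AddCommGrpCat.{w}) (s : Sys Γ N V) (C : Set (Finset V))
    (q : ℕ) : Prop :=
  ∀ H : GrpCat.{0} ⥤ AddCommGrpCat.{w}, InnTriv H → ∀ α : H ⟶ L, ∀ x ∈ gen H s C,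
    (α.app (GrpCat.of s.G)).hom x = 0 → q • x ∈ genKer α s C

end Formula

end Pool.Agent.Y483.PI
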