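import Pool.Agent.Y483.PI.Def
import Pool.Agent.Y477.IW.LPres

/-!
Integral transfers along pairs of cocycles for the quadratic L-groups of group rings with
coefficients in a ring with involution.
-/

namespace Pool.Agent.Y483.PI

open Pool.Agent.Y483 Pool.Agent.Y483.PW Pool.Agent.Y477.IW CategoryTheory

universe w

/-- A functor has transfers along pairs, with values in a larger group. -/
def HasPTI (E : GrpCat.{0} ⥤ AddCommGrpCat.{w}) : Prop :=
  ∀ (G A K : Type) [Group G] [Group K] (κ : FinPair G A K),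
    ∃ (M : Type w) (_ : AddCommGroup M) (Φ : E.obj (GrpCat.of G) →+ M)
      (ι : E.obj (GrpCat.of K) →+ M), Function.Injective ι ∧
      ∀ (G₀ : Type) [Group G₀] (j : G₀ →* G) (Y : Finset A) (lc ld : A → (G₀ →* K)),
        (∀ a ∈ Y, ∀ g, κ.σ (j g) a = a ∧ lc a g = κ.c (j g) a ∧ ld a g = κ.d (j g) a) →
        (∀ a ∉ Y, ∀ g, κ.c (j g) a = κ.d (j g) a) → ∀ x : E.obj (GrpCat.of G₀),
          Φ (gm E j x) = ι (∑ a ∈ Y, (gm E (lc a) x - gm E (ld a) x))

section Pairs

variable {G A K : Type} [Group G] [Group K]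

/-- The pair with both cocycles equal to the second one. -/
def pD (κ : FinPair G A K) : FinPair G A K where
  σ := κ.σ
  c := κ.d
  d := κ.d
  mul_c := κ.mul_d
  mul_d := κ.mul_d
  fin g := by
    refine Set.finite_empty.subset ?_
    intro a ha
    exact absurd rfl ha

end Pairs

section Proj

open Classical in
/-- The projection to the points of `Y` in the first component. -/
noncomputable def prj (S A : Type) [Ring S] [StarRing S] (Y : Finset A) : DD S A :=
  DD.mk (diagOp (fun a => if a ∈ Y then (1 : S) else 0)) 0 (by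
    rw [sub_zero]
    exact diagOp_finRank _ Y (fun b hb => by simp [hb]))

variable {S A : Type} [Ring S] [StarRing S] (Y : Finset A)

theorem prj_mul : prj S A Y * prj S A Y = prj S A Y := by
  classical
  apply DD.ext
  · rw [DD.fst_mul]
    change diagOp _ * diagOp _ = diagOp _
    rw [← diagOp_mul]; congr 1; funext b
    by_cases hb : b ∈ Y <;> simp [hb]
  · rw [DD.snd_mul]
    change (0 : Op S A) * 0 = 0
    simp

theorem prj_star : star (prj S A Y) = prj S A Y := by
  classical
  apply DD.ext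
  · rw [DD.fst_star]
    change star (diagOp _) = diagOp _
    rw [← diagOp_star]; congr 1; funext b
    by_cases hb : b ∈ Y <;> simp [hb]
  · rw [DD.snd_star]
    change star (0 : Op S A) = 0
    simp

theorem block_prj {R : Type} [Ring R] [StarRing R] (φ : A → (R →⋆ₙ+* S)) (x : R) :
    blockHom φ Y x * prj S A Y = blockHom φ Y x := by
  classical
  apply DD.ext
  · rw [DD.fst_mul]
    change diagOp _ * diagOp _ = diagOp _
    rw [← diagOp_mul]; congr 1; funext b
    by_cases hb : b ∈ Y <;> simp [hb]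
  · rw [DD.snd_mul]
    change (0 : Op S A) * 0 = 0
    simp

end Proj

/-- The homomorphism `x ↦ (1 - p) g(x)`, for a projection `p` which commutes with the image. -/
def cutHom {R S : Type} [Ring R] [StarRing R] [Ring S] [StarRing S] (g : R →⋆ₙ+* S) (p : S)
    (hp : p * p = p) (hs : star p = p) (hc : ∀ x, p * g x = g x * p) : R →⋆ₙ+* S where
  toFun x := g x - p * g x
  map_mul' x y := by
    have e1 : (g x - p * g x) * (g y - p * g y) =
        g x * g y - (g x * p) * g y - p * (g x * g y) + p * (g x * p) * g y := by noncomm_ring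
    have e2 : p * (p * g x) = p * g x := by rw [← mul_assoc, hp]
    change g (x * y) - p * g (x * y) = (g x - p * g x) * (g y - p * g y)
    rw [e1, ← hc x, e2, map_mul, mul_assoc p (g x) (g y), sub_add_cancel]
  map_zero' := by
    change g 0 - p * g 0 = 0
    rw [map_zero, mul_zero, sub_zero]
  map_add' x y := by
    change g (x + y) - p * g (x + y) = (g x - p * g x) + (g y - p * g y)
    rw [map_add, mul_add, add_sub_add_comm]
  map_star' x := by
    change g (star x) - p * g (star x) = star (g x - p * g x)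
    rw [star_sub, star_mul, hs, map_star, ← map_star g x, hc]

theorem cutHom_apply {R S : Type} [Ring R] [StarRing R] [Ring S] [StarRing S] (g : R →⋆ₙ+* S)
    (p : S) (hp : p * p = p) (hs : star p = p) (hc : ∀ x, p * g x = g x * p) (x : R) :
    cutHom g p hp hs hc x = g x - p * g x := rfl

section Decomp

variable {G A K G₀ : Type} [Group G] [Group K] [Group G₀] (R : Type) [Ring R] [StarRing R]

theorem comm_of_single {S : Type} [Ring S] [StarRing S]
    (f : MonoidAlgebra R G →⋆ₙ+* S) (p : S)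
    (H : ∀ (g : G) (r : R), p * f (MonoidAlgebra.single g r) = f (MonoidAlgebra.single g r) * p)
    (x : MonoidAlgebra R G) : p * f x = f x * p := by
  have key : (AddMonoidHom.mulLeft p).comp (f : MonoidAlgebra R G →+ S) =
      (AddMonoidHom.mulRight p).comp (f : MonoidAlgebra R G →+ S) := by
    apply MonoidAlgebra.addMonoidHom_ext
    intro y n
    exact H y n
  exact DFunLike.congr_fun key x

theorem fix_mem {σ : Equiv.Perm A} {Y : Finset A} (h : ∀ a ∈ Y, σ a = a) (a : A) :
    σ a ∈ Y ↔ a ∈ Y := by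
  constructor
  · intro ha
    have h1 := σ.injective (h _ ha)
    rwa [h1] at ha
  · intro ha
    rwa [h a ha]

theorem prj_comm (κ : FinPair G A K) (j : G₀ →* G) (Y : Finset A)
    (hY : ∀ a ∈ Y, ∀ g, κ.σ (j g) a = a) (x : MonoidAlgebra R G₀) :
    prj (MonoidAlgebra R K) A Y * ((pHom R (pD κ)).comp (grMap R j)) x =
      ((pHom R (pD κ)).comp (grMap R j)) x * prj (MonoidAlgebra R K) A Y := by
  classical
  refine comm_of_single R _ _ ?_ x
  intro g r
  rw [NonUnitalStarRingHom.comp_apply, grMap_single]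
  have hm : ∀ a : A, κ.σ (j g) a ∈ Y ↔ a ∈ Y := fix_mem fun a ha => hY a ha g
  apply DD.ext
  · rw [DD.fst_mul, DD.fst_mul, pHom_fst]
    change diagOp _ * monoOp _ _ = monoOp _ _ * diagOp _
    apply Op.ext'; intro a
    rw [Op.fn_mul, Op.fn_mul, monoOp_fn, diagOp_fn, diagOp_fn, monoOp_fn]
    change Finsupp.single (κ.σ (j g) a) ((if κ.σ (j g) a ∈ Y then _ else _) * _) =
      Finsupp.single (κ.σ (j g) a) _
    by_cases ha : a ∈ Y
    · rw [if_pos ((hm a).2 ha), if_pos ha]
      simp
    · rw [if_neg (fun h => ha ((hm a).1 h)), if_neg ha]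
      simp
  · rw [DD.snd_mul, DD.snd_mul]
    change (0 : Op _ A) * _ = _ * (0 : Op _ A)
    simp

/-- The part away from `Y`. -/
noncomputable def f0 (κ : FinPair G A K) (j : G₀ →* G) (Y : Finset A)
    (hY : ∀ a ∈ Y, ∀ g, κ.σ (j g) a = a) :
    MonoidAlgebra R G₀ →⋆ₙ+* DD (MonoidAlgebra R K) A :=
  cutHom ((pHom R (pD κ)).comp (grMap R j)) (prj (MonoidAlgebra R K) A Y)
    (prj_mul Y) (prj_star Y) (prj_comm R κ j Y hY)

theorem block_f0 (κ : FinPair G A K) (j : G₀ →* G) (Y : Finset A)
    (hY : ∀ a ∈ Y, ∀ g, κ.σ (j g) a = a)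
    (φ : A → (MonoidAlgebra R G₀ →⋆ₙ+* MonoidAlgebra R K))
    (x y : MonoidAlgebra R G₀) : blockHom φ Y x * f0 R κ j Y hY y = 0 := by
  unfold f0
  rw [cutHom_apply, mul_sub, ← mul_assoc, block_prj, sub_self]

/-- The decomposition, for one of the two cocycles. -/
theorem decomp (κ : FinPair G A K) (j : G₀ →* G) (Y : Finset A)
    (hY : ∀ a ∈ Y, ∀ g, κ.σ (j g) a = a) (lc : A → (G₀ →* K)) (μ : FinPair G A K)
    (hσ : ∀ g a, μ.σ g a = κ.σ g a) (hd : ∀ g a, μ.d g a = κ.d g a)
    (hc1 : ∀ a ∈ Y, ∀ g : G₀, μ.c (j g) a = lc a g)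
    (hc2 : ∀ a ∉ Y, ∀ g : G₀, μ.c (j g) a = κ.d (j g) a)
    (x : MonoidAlgebra R G₀) :
    ((pHom R μ).comp (grMap R j)) x =
      blockHom (fun a => grMap R (lc a)) Y x + f0 R κ j Y hY x := by
  classical
  revert x
  apply grHom_add_ext
  intro g r
  unfold f0
  rw [cutHom_apply, NonUnitalStarRingHom.comp_apply, NonUnitalStarRingHom.comp_apply,
    grMap_single]
  have hm : ∀ a : A, κ.σ (j g) a ∈ Y ↔ a ∈ Y := fix_mem fun a ha => hY a ha g
  apply DD.ext
  · rw [DD.fst_add, pHom_fst]
    have e : ((pHom R (pD κ)) (MonoidAlgebra.single (j g) r) -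
        prj (MonoidAlgebra R K) A Y * (pHom R (pD κ)) (MonoidAlgebra.single (j g) r)).fst =
        monoOp (κ.σ (j g)) (fun a => MonoidAlgebra.single (κ.d (j g) a) r) -
          diagOp (fun a => if a ∈ Y then (1 : MonoidAlgebra R K) else 0) *
            monoOp (κ.σ (j g)) (fun a => MonoidAlgebra.single (κ.d (j g) a) r) := by
      have h : ((pHom R (pD κ)) (MonoidAlgebra.single (j g) r)).fst =
          monoOp (κ.σ (j g)) (fun a => MonoidAlgebra.single (κ.d (j g) a) r) :=
        pHom_fst R (pD κ) (j g) r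
      rw [← h]
      rfl
    rw [e]
    change monoOp _ _ = diagOp _ + (monoOp _ _ - diagOp _ * monoOp _ _)
    apply Op.ext'; intro a
    rw [monoOp_fn, Op.fn_add, diagOp_fn, Op.fn_sub, Op.fn_mul, monoOp_fn, diagOp_fn, hσ]
    by_cases ha : a ∈ Y
    · rw [if_pos ((hm a).2 ha), hY a ha g, hc1 a ha g]
      simp only [ha, if_true]
      rw [grMap_single, one_mul, sub_self, add_zero]
    · rw [if_neg (fun h => ha ((hm a).1 h)), hc2 a ha g]
      simp only [ha, if_false, zero_mul, Finsupp.single_zero, zero_add, sub_zero]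
  · rw [DD.snd_add, pHom_snd]
    have e : ((pHom R (pD κ)) (MonoidAlgebra.single (j g) r) -
        prj (MonoidAlgebra R K) A Y * (pHom R (pD κ)) (MonoidAlgebra.single (j g) r)).snd =
        monoOp (κ.σ (j g)) (fun a => MonoidAlgebra.single (κ.d (j g) a) r) -
          (0 : Op _ A) * monoOp (κ.σ (j g)) (fun a => MonoidAlgebra.single (κ.d (j g) a) r) := by
      have h : ((pHom R (pD κ)) (MonoidAlgebra.single (j g) r)).snd =
          monoOp (κ.σ (j g)) (fun a => MonoidAlgebra.single (κ.d (j g) a) r) :=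
        pHom_snd R (pD κ) (j g) r
      rw [← h]
      rfl
    rw [e]
    change monoOp _ _ = (0 : Op _ A) + (monoOp _ _ - (0 : Op _ A) * monoOp _ _)
    apply Op.ext'; intro a
    rw [zero_mul, sub_zero, zero_add, monoOp_fn, monoOp_fn, hσ, hd]

end Decomp

section Main

universe v

theorem pre (E : IFunctor.{v}) (R : Type) [Ring R] [StarRing R] {G A K G₀ : Type} [Group G]
    [Group K] [Group G₀] (κ : FinPair G A K) (a₀ : A) (j : G₀ →* G) (Y : Finset A)
    (lc ld : A → (G₀ →* K))
    (hY1 : ∀ a ∈ Y, ∀ g, κ.σ (j g) a = a ∧ lc a g = κ.c (j g) a ∧ ld a g = κ.d (j g) a)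
    (hY2 : ∀ a ∉ Y, ∀ g, κ.c (j g) a = κ.d (j g) a) (x : E.obj (MonoidAlgebra R G₀)) :
    E.map (pHom R κ) (E.map (grMap R j) x) - E.map (pHom R (pD κ)) (E.map (grMap R j) x) =
      E.map (corner (MonoidAlgebra R K) A a₀)
        (∑ a ∈ Y, (E.map (grMap R (lc a)) x - E.map (grMap R (ld a)) x)) := by
  classical
  have hY : ∀ a ∈ Y, ∀ g, κ.σ (j g) a = a := fun a ha g => (hY1 a ha g).1
  have h1 := E.map_add (blockHom (fun a => grMap R (lc a)) Y) (f0 R κ j Y hY)
    ((pHom R κ).comp (grMap R j))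
    (decomp R κ j Y hY lc κ (fun g a => rfl) (fun g a => rfl)
      (fun a ha g => (hY1 a ha g).2.1.symm)
      (fun a ha g => hY2 a ha g)) (block_f0 R κ j Y hY _) x
  have h2 := E.map_add (blockHom (fun a => grMap R (ld a)) Y) (f0 R κ j Y hY)
    ((pHom R (pD κ)).comp (grMap R j))
    (decomp R κ j Y hY ld (pD κ) (fun g a => rfl) (fun g a => rfl)
      (fun a ha g => (hY1 a ha g).2.2.symm)
      (fun a ha g => rfl)) (block_f0 R κ j Y hY _) x
  rw [E.map_comp, E.map_blockHom] at h1 h2
  rw [h1, h2, add_sub_add_right_eq_sub, ← Finset.sum_sub_distrib, map_sum]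
  apply Finset.sum_congr rfl
  intro a _
  rw [map_sub, E.map_corner a a₀, E.map_corner a a₀]

end Main

theorem hasPTI_lgr (R : Type) [Ring R] [StarRing R] (ε : ℤˣ) : HasPTI (lgr R ε) := by
  classical
  intro G A K _ _ κ
  by_cases hA : Nonempty A
  · obtain ⟨a₀⟩ := hA
    refine ⟨WG (DD (MonoidAlgebra R K) A) ε, inferInstance,
      (lFun ε).map (pHom R κ) - (lFun ε).map (pHom R (pD κ)),
      (lFun ε).map (corner (MonoidAlgebra R K) A a₀), (lFun ε).corner_inj _ A a₀, ?_⟩
    intro G₀ _ j Y lc ld hY1 hY2 x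
    exact pre (lFun ε) R κ a₀ j Y lc ld hY1 hY2 x
  · refine ⟨(lgr R ε).obj (GrpCat.of K), inferInstance, 0, AddMonoidHom.id _,
      Function.injective_id, ?_⟩
    intro G₀ _ j Y lc ld hY1 hY2 x
    have : Y = ∅ := by
      rw [Finset.eq_empty_iff_forall_notMem]
      intro a _
      exact hA ⟨a⟩
    rw [this, Finset.sum_empty, map_zero]
    rfl

end Pool.Agent.Y483.PI
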