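import Pool.Agent.Y483.PI.Def

/-!
Sums of a function of lists over the orderings of a finite set.
-/

namespace Pool.Agent.Y483.PI

open scoped Classical

variable {V : Type}

/-- The sum of `w` over the orderings of `σ`, for a set `σ` with `m` elements. -/
noncomputable def wtA : ℕ → (List V → ℤ) → Finset V → ℤ
  | 0, w, _ => w []
  | m + 1, w, σ => ∑ a ∈ σ, wtA m (fun l => w (a :: l)) (σ.erase a)

/-- The sum of `w` over the orderings of `σ`. -/
noncomputable def wt (w : List V → ℤ) (σ : Finset V) : ℤ := wtA σ.card w σ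

theorem wt_empty (w : List V → ℤ) : wt w ∅ = w [] := by
  unfold wt
  rw [Finset.card_empty]
  rfl

theorem wt_eq (w : List V → ℤ) {σ : Finset V} (h : σ ≠ ∅) :
    wt w σ = ∑ a ∈ σ, wt (fun l => w (a :: l)) (σ.erase a) := by
  obtain ⟨m, hm⟩ : ∃ m, σ.card = m + 1 :=
    Nat.exists_eq_succ_of_ne_zero (Finset.card_ne_zero.mpr (Finset.nonempty_iff_ne_empty.mpr h))
  unfold wt
  rw [hm]
  change ∑ a ∈ σ, wtA m (fun l => w (a :: l)) (σ.erase a) = _
  apply Finset.sum_congr rfl
  intro a ha
  rw [Finset.card_erase_of_mem ha, hm, Nat.add_sub_cancel]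

theorem wtA_map (i : V ↪ V) (m : ℕ) : ∀ (w : List V → ℤ) (σ : Finset V),
    wtA m w (σ.map i) = wtA m (fun l => w (l.map i)) σ := by
  induction m with
  | zero => intro w σ; rfl
  | succ m ih =>
    intro w σ
    change ∑ a ∈ σ.map i, wtA m (fun l => w (a :: l)) ((σ.map i).erase a) =
      ∑ a ∈ σ, wtA m (fun l => w ((a :: l).map i)) (σ.erase a)
    rw [Finset.sum_map]
    apply Finset.sum_congr rfl
    intro a _
    have h : (σ.map i).erase (i a) = (σ.erase a).map i := (Finset.map_erase i σ a).symm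
    rw [h, ih]
    rfl

theorem wt_map (i : V ↪ V) (w : List V → ℤ) (σ : Finset V) :
    wt w (σ.map i) = wt (fun l => w (l.map i)) σ := by
  unfold wt
  rw [Finset.card_map, wtA_map]

/-- The orderings of `σ`. -/
noncomputable def ords (σ : Finset V) : Finset (List V) := (Multiset.lists σ.val).toFinset

theorem mem_ords {σ : Finset V} {l : List V} : l ∈ ords σ ↔ (l : Multiset V) = σ.val := by
  unfold ords
  rw [Multiset.mem_toFinset, Multiset.mem_lists_iff]
  exact eq_comm

theorem wt_ords (n : ℕ) : ∀ (σ : Finset V) (w : List V → ℤ), σ.card = n →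
    wt w σ = ∑ l ∈ ords σ, w l := by
  induction n with
  | zero =>
    intro σ w hn
    have hσ : σ = ∅ := Finset.card_eq_zero.mp hn
    subst hσ
    have h : ords (∅ : Finset V) = {[]} := by
      ext l
      rw [mem_ords, Finset.mem_singleton, Finset.empty_val, Multiset.coe_eq_zero]
    rw [wt_empty, h, Finset.sum_singleton]
  | succ n ih =>
    intro σ w hn
    have hne : σ ≠ ∅ := by
      rintro rfl
      rw [Finset.card_empty] at hn
      omega
    rw [wt_eq w hne]
    have h1 : ∀ a ∈ σ, wt (fun l => w (a :: l)) (σ.erase a) =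
        ∑ l ∈ ords (σ.erase a), w (a :: l) := by
      intro a ha
      apply ih
      rw [Finset.card_erase_of_mem ha, hn, Nat.add_sub_cancel]
    rw [Finset.sum_congr rfl h1, Finset.sum_sigma']
    refine Finset.sum_bij (fun p _ => p.1 :: p.2) ?_ ?_ ?_ ?_
    · rintro ⟨a, l⟩ h
      rw [Finset.mem_sigma] at h
      have h2 := mem_ords.mp h.2
      rw [mem_ords, ← Multiset.cons_coe, h2, Finset.erase_val]
      exact Multiset.cons_erase h.1
    · rintro ⟨a, l⟩ _ ⟨a', l'⟩ _ h
      obtain ⟨rfl, rfl⟩ := List.cons.inj h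
      rfl
    · intro l hl
      rw [mem_ords] at hl
      cases l with
      | nil =>
        exfalso
        apply hne
        rw [← Finset.val_eq_zero, ← hl]
        rfl
      | cons a l =>
        rw [← Multiset.cons_coe] at hl
        have ha : a ∈ σ := by
          rw [← Finset.mem_val, ← hl]
          exact Multiset.mem_cons_self _ _
        refine ⟨⟨a, l⟩, ?_, rfl⟩
        rw [Finset.mem_sigma]
        refine ⟨ha, ?_⟩
        rw [mem_ords, Finset.erase_val, ← hl, Multiset.erase_cons_head]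
    · rintro ⟨a, l⟩ _
      rfl

section Act

variable {Γ : Type} [Group Γ] [MulAction Γ V]

/-- The translate of a finite set. -/
def mv (γ : Γ) (σ : Finset V) : Finset V := σ.map ⟨fun v => γ • v, MulAction.injective γ⟩

theorem mem_mv {γ : Γ} {σ : Finset V} {v : V} : v ∈ mv γ σ ↔ γ⁻¹ • v ∈ σ := by
  unfold mv
  rw [Finset.mem_map]
  constructor
  · rintro ⟨u, hu, rfl⟩
    change γ⁻¹ • (γ • u) ∈ σ
    rwa [inv_smul_smul]
  · intro h
    exact ⟨_, h, smul_inv_smul γ v⟩

theorem mv_one (σ : Finset V) : mv (1 : Γ) σ = σ := by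
  ext v
  rw [mem_mv, inv_one, one_smul]

theorem mv_mul (γ δ : Γ) (σ : Finset V) : mv (γ * δ) σ = mv γ (mv δ σ) := by
  ext v
  rw [mem_mv, mem_mv, mem_mv, mul_inv_rev, mul_smul]

/-- The equivalence relation of the orbits of finite sets. -/
def orbS (Γ : Type) {V : Type} [Group Γ] [MulAction Γ V] : Setoid (Finset V) where
  r σ τ := ∃ γ : Γ, mv γ σ = τ
  iseqv :=
    ⟨fun σ => ⟨1, mv_one σ⟩, fun {σ τ} ⟨γ, h⟩ => ⟨γ⁻¹, by rw [← h, ← mv_mul, inv_mul_cancel, mv_one]⟩,
      fun {σ τ ρ} ⟨γ, h⟩ ⟨δ, h'⟩ => ⟨δ * γ, by rw [mv_mul, h, h']⟩⟩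

/-- The representative of the orbit of a finite set. -/
noncomputable def rho (Γ : Type) {V : Type} [Group Γ] [MulAction Γ V] (σ : Finset V) : Finset V :=
  Quotient.out (Quotient.mk (orbS Γ) σ)

theorem rho_spec (σ : Finset V) : ∃ γ : Γ, mv γ (rho Γ σ) = σ :=
  Quotient.mk_out (s := orbS Γ) σ

theorem rho_mv (γ : Γ) (σ : Finset V) : rho Γ (mv γ σ) = rho Γ σ := by
  unfold rho
  congr 1
  exact (Quotient.sound (s := orbS Γ) ⟨γ, rfl⟩).symm

/-- The orderings of the representatives and their translates. -/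
def Good (Γ : Type) {V : Type} [Group Γ] [MulAction Γ V] (l : List V) : Prop :=
  ∃ γ : Γ, l = (rho Γ l.toFinset).toList.map (fun v => γ • v)

theorem toFinset_map_smul (γ : Γ) (l : List V) :
    (l.map (fun v => γ • v)).toFinset = mv γ l.toFinset := by
  ext v
  rw [mem_mv, List.mem_toFinset, List.mem_toFinset, List.mem_map]
  constructor
  · rintro ⟨u, hu, rfl⟩
    rwa [inv_smul_smul]
  · intro h
    exact ⟨_, h, smul_inv_smul γ v⟩

theorem good_map (γ : Γ) (l : List V) : Good Γ (l.map (fun v => γ • v)) ↔ Good Γ l := by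
  unfold Good
  rw [toFinset_map_smul, rho_mv]
  constructor
  · rintro ⟨δ, h⟩
    refine ⟨γ⁻¹ * δ, ?_⟩
    have h2 := congrArg (List.map (fun v => γ⁻¹ • v)) h
    rw [List.map_map, List.map_map] at h2
    have e1 : ((fun v : V => γ⁻¹ • v) ∘ fun v => γ • v) = id := by
      funext v
      exact inv_smul_smul γ v
    have e2 : ((fun v : V => γ⁻¹ • v) ∘ fun v => δ • v) = fun v => (γ⁻¹ * δ) • v := by
      funext v
      exact (mul_smul γ⁻¹ δ v).symm
    rw [e1, e2, List.map_id] at h2
    exact h2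
  · rintro ⟨δ, h⟩
    refine ⟨γ * δ, ?_⟩
    conv_lhs => rw [h]
    rw [List.map_map]
    congr 1
    funext v
    exact (mul_smul γ δ v).symm

/-- The number of the good orderings. -/
theorem card_good (σ : Finset V) : ((ords σ).filter (Good Γ)).card = permNo Γ σ := by
  obtain ⟨γ₀, hγ₀⟩ := rho_spec (Γ := Γ) σ
  let l₁ : List V := (rho Γ σ).toList.map (fun v => γ₀ • v)
  have hl₁ : ∀ v, v ∈ l₁ ↔ v ∈ σ := by
    intro v
    have h := toFinset_map_smul γ₀ (rho Γ σ).toList
    rw [Finset.toList_toFinset, hγ₀] at h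
    rw [← h, List.mem_toFinset]
  let F : {p : Equiv.Perm {v : V // v ∈ σ} // ∃ γ : Γ, ∀ v, γ • v.1 = (p v).1} → List V :=
    fun p => l₁.map (fun v => if h : v ∈ σ then (p.1 ⟨v, h⟩).1 else v)
  have hF : ∀ (p : {p : Equiv.Perm {v : V // v ∈ σ} // ∃ γ : Γ, ∀ v, γ • v.1 = (p v).1}) (γ : Γ),
      (∀ v, γ • v.1 = (p.1 v).1) → F p = l₁.map (fun v => γ • v) := by
    intro p γ h
    apply List.map_congr_left
    intro v hv
    rw [dif_pos ((hl₁ v).mp hv)]
    exact (h ⟨v, (hl₁ v).mp hv⟩).symm
  have hmv : ∀ (γ : Γ) (p : Equiv.Perm {v : V // v ∈ σ}), (∀ v, γ • v.1 = (p v).1) →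
      mv γ σ = σ := by
    intro γ p h
    apply Finset.eq_of_subset_of_card_le
    · intro v hv
      rw [mem_mv] at hv
      have h2 := h ⟨γ⁻¹ • v, hv⟩
      rw [smul_inv_smul] at h2
      rw [h2]
      exact (p _).2
    · unfold mv
      rw [Finset.card_map]
  have hord : ∀ γ : Γ, mv γ σ = σ → l₁.map (fun v => γ • v) ∈ (ords σ).filter (Good Γ) := by
    intro γ h
    have h1 : (l₁.map (fun v => γ • v)).toFinset = σ := by
      rw [toFinset_map_smul]
      have : l₁.toFinset = σ := by
        ext v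
        rw [List.mem_toFinset, hl₁]
      rw [this, h]
    have hnd : (l₁.map (fun v => γ • v)).Nodup := by
      apply List.Nodup.map (MulAction.injective γ)
      exact List.Nodup.map (MulAction.injective γ₀) (Finset.nodup_toList _)
    rw [Finset.mem_filter, mem_ords]
    constructor
    · rw [← h1, List.toFinset_val, List.Nodup.dedup hnd]
    · refine ⟨γ * γ₀, ?_⟩
      rw [h1]
      change List.map _ (List.map _ _) = _
      rw [List.map_map]
      congr 1
      funext v
      exact (mul_smul γ γ₀ v).symm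
  have hcard : Nat.card {l : List V // l ∈ (ords σ).filter (Good Γ)} = permNo Γ σ := by
    unfold permNo
    symm
    apply Nat.card_congr
    refine Equiv.ofBijective (fun p => ⟨F p, ?_⟩) ⟨?_, ?_⟩
    · obtain ⟨γ, hγ⟩ := p.2
      rw [hF p γ hγ]
      exact hord γ (hmv γ p.1 hγ)
    · intro p p' h
      have h2 : F p = F p' := congrArg Subtype.val h
      apply Subtype.ext
      apply Equiv.ext
      intro v
      have h3 := List.map_inj_left.mp h2 v.1 ((hl₁ v.1).mpr v.2)
      rw [dif_pos v.2, dif_pos v.2] at h3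
      exact Subtype.ext h3
    · rintro ⟨l, hl⟩
      rw [Finset.mem_filter, mem_ords] at hl
      obtain ⟨hl1, γ, hγ⟩ := hl
      have h1 : l.toFinset = σ := by
        ext v
        rw [List.mem_toFinset, ← Finset.mem_val, ← hl1, Multiset.mem_coe]
      rw [h1] at hγ
      have h2 : l = l₁.map (fun v => (γ * γ₀⁻¹) • v) := by
        rw [hγ]
        change _ = List.map _ (List.map _ _)
        rw [List.map_map]
        congr 1
        funext v
        change γ • v = (γ * γ₀⁻¹) • γ₀ • v
        rw [mul_smul, inv_smul_smul]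
      have h3 : mv (γ * γ₀⁻¹) σ = σ := by
        rw [h2, toFinset_map_smul] at h1
        have : l₁.toFinset = σ := by
          ext v
          rw [List.mem_toFinset, hl₁]
        rwa [this] at h1
      have h4 : ∀ v, v ∈ σ ↔ (γ * γ₀⁻¹) • v ∈ σ := by
        intro v
        conv_rhs => rw [← h3, mem_mv, inv_smul_smul]
      refine ⟨⟨(MulAction.toPerm (γ * γ₀⁻¹)).subtypePerm fun v => (h4 v).symm, γ * γ₀⁻¹, fun v => rfl⟩, ?_⟩
      apply Subtype.ext
      change F _ = l
      rw [h2]
      exact hF _ (γ * γ₀⁻¹) fun v => rfl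
  rw [← hcard, Nat.card_eq_fintype_card, Fintype.card_coe]

theorem permNo_mv (γ : Γ) (σ : Finset V) : permNo Γ (mv γ σ) = permNo Γ σ := by
  rw [← card_good, ← card_good]
  symm
  refine Finset.card_bij (fun l _ => l.map (fun v => γ • v)) ?_ ?_ ?_
  · intro l hl
    rw [Finset.mem_filter, mem_ords] at hl ⊢
    refine ⟨?_, (good_map γ l).mpr hl.2⟩
    unfold mv
    rw [Finset.map_val, ← hl.1]
    rfl
  · intro l _ l' _ h
    exact List.map_injective_iff.mpr (MulAction.injective γ) h
  · intro l hl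
    rw [Finset.mem_filter, mem_ords] at hl
    have e : (l.map (fun v => γ⁻¹ • v)).map (fun v => γ • v) = l := by
      rw [List.map_map]
      have : ((fun v : V => γ • v) ∘ fun v => γ⁻¹ • v) = id := by
        funext v
        exact smul_inv_smul γ v
      rw [this, List.map_id]
    refine ⟨l.map (fun v => γ⁻¹ • v), ?_, e⟩
    rw [Finset.mem_filter, mem_ords]
    refine ⟨?_, (good_map γ⁻¹ l).mpr hl.2⟩
    have h1 : σ = mv γ⁻¹ (mv γ σ) := by rw [← mv_mul, inv_mul_cancel, mv_one]
    rw [h1]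
    conv_rhs => unfold mv
    rw [Finset.map_val]
    change ((l.map (fun v => γ⁻¹ • v) : List V) : Multiset V) = Multiset.map _ (mv γ σ).val
    rw [← hl.1]
    rfl

/-- An invariant weight. -/
theorem exists_wt (C : Set (Finset V)) (q : ℕ) (hq : ∀ σ ∈ C, permNo Γ σ ∣ q) :
    ∃ w : List V → ℤ, (∀ (γ : Γ) (l : List V), w (l.map (fun v => γ • v)) = w l) ∧
      ∀ σ ∈ C, wt w σ = q := by
  refine ⟨fun l => if Good Γ l then ((q / permNo Γ l.toFinset : ℕ) : ℤ) else 0, ?_, ?_⟩
  · intro γ l
    change (if Good Γ _ then _ else _) = (if Good Γ l then _ else _)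
    rw [toFinset_map_smul, permNo_mv]
    simp only [good_map]
  · intro σ hσ
    rw [wt_ords σ.card σ _ rfl, ← Finset.sum_filter]
    have h1 : ∀ l ∈ (ords σ).filter (Good Γ), ((q / permNo Γ l.toFinset : ℕ) : ℤ) =
        ((q / permNo Γ σ : ℕ) : ℤ) := by
      intro l hl
      rw [Finset.mem_filter, mem_ords] at hl
      have h2 : l.toFinset = σ := by
        ext v
        rw [List.mem_toFinset, ← Finset.mem_val, ← hl.1, Multiset.mem_coe]
      rw [h2]
    rw [Finset.sum_congr rfl h1, Finset.sum_const, card_good, nsmul_eq_mul, ← Nat.cast_mul,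
      Nat.mul_div_cancel' (hq σ hσ)]

end Act

end Pool.Agent.Y483.PI
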