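import Pool.Agent.Y483.PW.Ind2
import Pool.Agent.Y483.PI.Alt
import Pool.Agent.Y483.PI.Wt
import Pool.Agent.Y483.PI.Tr

/-!
The integral kernel formula for systems of supports: the induction.
-/

namespace Pool.Agent.Y483.PI

open Pool.Agent.Y483 Pool.Agent.Y483.PW CategoryTheory Pointwise
open scoped Classical

universe w

section Gm

variable (H : GrpCat.{0} ⥤ AddCommGrpCat.{w}) {G K L : Type} [Group G] [Group K] [Group L]

theorem gm_comp (g : K →* L) (f : G →* K) (x : H.obj (GrpCat.of G)) :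
    gm H (g.comp f) x = gm H g (gm H f x) := by
  unfold gm
  have h : GrpCat.ofHom (g.comp f) = GrpCat.ofHom f ≫ GrpCat.ofHom g := rfl
  rw [h, H.map_comp]
  rfl

theorem gm_conj {H : GrpCat.{0} ⥤ AddCommGrpCat.{w}} (hH : InnTriv H) (f : G →* K) (k : K)
    (x : H.obj (GrpCat.of G)) : gm H (conjHom f k) x = gm H f x := by
  unfold conjHom
  rw [gm_comp, hH]

theorem gm_nat {H E : GrpCat.{0} ⥤ AddCommGrpCat.{w}} (α : H ⟶ E) (f : G →* K)
    (x : H.obj (GrpCat.of G)) :
    (α.app (GrpCat.of K)).hom (gm H f x) = gm E f ((α.app (GrpCat.of G)).hom x) := by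
  have h := α.naturality (GrpCat.ofHom f)
  have h2 := congrArg (fun g => g.hom x) h
  exact h2

end Gm

variable {Γ N V : Type} [Group Γ] [Group N] [MulAction Γ V]
  (H : GrpCat.{0} ⥤ AddCommGrpCat.{w}) (s : Sys Γ N V)

/-- The alternating sum of the images of `u` under the homomorphisms `cut`. -/
noncomputable def bas {L : Type} [Group L] (f : L →* s.G) (σ : Finset V)
    (u : H.obj (GrpCat.of L)) : H.obj (GrpCat.of s.G) :=
  alt σ (fun U => gm H (s.cutT f (U : Set V)) u)

/-- The projection to the part of empty support. -/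
noncomputable def ee : s.G →* s.G := s.cutT (MonoidHom.id s.G) ((∅ : Finset V) : Set V)

theorem ee_cut {L : Type} [Group L] {f : L →* s.G} {σ U : Finset V} (hf : s.Fix f σ)
    (hU : U ⊆ σ) : (ee s).comp (s.cutT f (U : Set V)) = s.cutT f ((∅ : Finset V) : Set V) := by
  ext1 l
  unfold ee
  rw [MonoidHom.comp_apply, s.cutT_apply f _ (hf.smul s hU),
    s.cutT_apply f _ (s.smul_empty' f),
    s.cutT_apply (MonoidHom.id s.G) _ (s.smul_empty' (MonoidHom.id s.G))]
  apply SemidirectProduct.ext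
  · change s.e _ (s.e _ _) = s.e _ _
    rw [s.inter, Finset.coe_empty, Set.empty_inter]
  · rfl

theorem ee_bas {L : Type} [Group L] {f : L →* s.G} {σ : Finset V} (hf : s.Fix f σ)
    (u : H.obj (GrpCat.of L)) :
    gm H (ee s) (bas H s f σ u) = if σ = ∅ then bas H s f σ u else 0 := by
  unfold bas
  rw [map_alt]
  have h1 : alt σ (fun U => gm H (ee s) (gm H (s.cutT f (U : Set V)) u)) =
      alt σ (fun _ => gm H (s.cutT f ((∅ : Finset V) : Set V)) u) := by
    apply alt_congr
    intro U hU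
    rw [← gm_comp, ee_cut s hf hU]
  rw [h1]
  by_cases hσ : σ = ∅
  · subst hσ
    rw [if_pos rfl, alt_empty, alt_empty]
  · rw [if_neg hσ, alt_const hσ]

/-- The transfer of an alternating sum, at one point. -/
noncomputable def cur (x : V) {L : Type} [Group L] (f : L →* s.G) (σ : Finset V)
    (u : H.obj (GrpCat.of L)) (a : MulAction.orbit Γ x) : H.obj (GrpCat.of (s.sub x).G) :=
  bas H (s.sub x) (s.lbl x f a) ((σ.erase a.1).map (Sys.tm x a)) u -
    bas H (s.sub x) ((s.kill x).comp (s.lbl x f a)) ((σ.erase a.1).map (Sys.tm x a)) u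

variable {H} (x : V)

theorem incl_cur (hH : InnTriv H) {L : Type} [Group L] {f : L →* s.G} {σ : Finset V}
    (hf : s.Fix f σ) (u : H.obj (GrpCat.of L)) {a : MulAction.orbit Γ x} (ha : a.1 ∈ σ) :
    gm H (s.incl x) (cur H s x f σ u a) = bas H s f σ u := by
  unfold cur bas
  rw [map_sub, map_alt, map_alt, alt_map, alt_map, ← alt_sub, alt_erase ha]
  apply alt_congr
  intro U hU
  rw [← gm_comp, ← gm_comp, s.k4 x hf ha hU, s.k5 x hf ha hU, gm_conj hH, gm_conj hH]

variable {E : GrpCat.{0} ⥤ AddCommGrpCat.{w}} (α : H ⟶ E)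

/-- The property of the transfer. -/
def IsTrI (E : GrpCat.{0} ⥤ AddCommGrpCat.{w}) {M : Type w} [AddCommGroup M]
    (Φ : E.obj (GrpCat.of s.G) →+ M) (ι : E.obj (GrpCat.of (s.sub x).G) →+ M) : Prop :=
  ∀ (G₀ : Type) [Group G₀] (j : G₀ →* s.G) (Y : Finset (MulAction.orbit Γ x))
    (lc ld : MulAction.orbit Γ x → (G₀ →* (s.sub x).G)),
    (∀ a ∈ Y, ∀ g, (s.pairC x).σ (j g) a = a ∧ lc a g = (s.pairC x).c (j g) a ∧
      ld a g = (s.pairC x).d (j g) a) →
    (∀ a ∉ Y, ∀ g, (s.pairC x).c (j g) a = (s.pairC x).d (j g) a) → ∀ y : E.obj (GrpCat.of G₀),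
      Φ (gm E j y) = ι (∑ a ∈ Y, (gm E (lc a) y - gm E (ld a) y))

theorem tr_bas {M : Type w} [AddCommGroup M]
    {Φ : E.obj (GrpCat.of s.G) →+ M} {ι : E.obj (GrpCat.of (s.sub x).G) →+ M}
    (hΦ : IsTrI s x E Φ ι) {L : Type} [Group L] {f : L →* s.G} {σ : Finset V}
    (hf : s.Fix f σ) (u : H.obj (GrpCat.of L)) :
    Φ ((α.app (GrpCat.of s.G)).hom (bas H s f σ u)) =
      ι ((α.app (GrpCat.of (s.sub x).G)).hom
        (∑ a ∈ Sys.yy (Γ := Γ) x σ, cur H s x f σ u a)) := by
  unfold bas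
  rw [map_alt, map_alt]
  have h1 : alt σ (fun U => Φ ((α.app (GrpCat.of s.G)).hom (gm H (s.cutT f (U : Set V)) u))) =
      alt σ (fun U => ι (∑ a ∈ Sys.yy (Γ := Γ) x σ,
        (gm E (s.lbl x (s.cutT f (U : Set V)) a) ((α.app (GrpCat.of L)).hom u) -
          gm E ((s.kill x).comp (s.lbl x (s.cutT f (U : Set V)) a))
            ((α.app (GrpCat.of L)).hom u)))) := by
    apply alt_congr
    intro U hU
    have hfc := hf.cut s hU
    rw [gm_nat]
    apply hΦ L (s.cutT f (U : Set V)) (Sys.yy x σ) (fun a => s.lbl x (s.cutT f (U : Set V)) a)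
      (fun a => (s.kill x).comp (s.lbl x (s.cutT f (U : Set V)) a))
    · intro a ha l
      rw [Sys.mem_yy] at ha
      refine ⟨hfc.orb s x ha l, s.lbl_apply x (hfc.orb s x ha) l, ?_⟩
      change s.kill x (s.lbl x (s.cutT f (U : Set V)) a l) = s.kill x (s.cc x _ a)
      rw [s.lbl_apply x (hfc.orb s x ha) l]
    · intro a ha l
      rw [Sys.mem_yy] at ha
      apply s.cc_kill x _ a U
      · rw [s.cutT_apply f _ (hf.smul s hU)]
        change s.e _ (s.e _ _) = s.e _ _
        rw [s.inter, Set.inter_self]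
      · intro h
        apply ha
        have h2 : (s.orbPerm x (s.cutT f (U : Set V) l) a).1 ∈ σ := hU h
        have h3 := hfc l⁻¹ _ h2
        have h4 : (s.cutT f (U : Set V) l⁻¹).right • (s.orbPerm x (s.cutT f (U : Set V) l) a).1 =
            a.1 := by
          rw [Sys.orbPerm_coe, map_inv, SemidirectProduct.inv_right, inv_smul_smul]
        rw [h4] at h3
        rw [h3]
        exact h2
  rw [h1, ← map_alt ι, alt_sum]
  congr 1
  rw [map_sum]
  apply Finset.sum_congr rfl
  intro a ha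
  rw [Sys.mem_yy] at ha
  unfold cur bas
  rw [map_sub, map_alt, map_alt, alt_map, alt_map, ← alt_sub, alt_erase ha]
  apply alt_congr
  intro U hU
  have hU' : U ⊆ σ := hU.trans (Finset.erase_subset _ _)
  have hfix : (s.sub x).Fix (s.lbl x f a) (U.map (Sys.tm x a)) := s.fix_lbl x hf ha hU'
  rw [s.k3 x hf ha hU, sub_self, sub_zero, s.k1 x hf ha hU, s.kill_cutT x hfix, gm_nat, gm_nat]

/-- The subgroup generated by the images of the kernels. -/
noncomputable def WW (C : Finset V → Prop) : AddSubgroup (H.obj (GrpCat.of s.G)) :=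
  AddSubgroup.closure {y | ∃ (L : Type) (_ : Group L) (f : L →* s.G) (σ : Finset V)
    (u : H.obj (GrpCat.of L)), (∀ l, f l ∈ s.supG σ) ∧ C σ ∧
      (α.app (GrpCat.of L)).hom u = 0 ∧ y = gm H f u}

variable (H) in
/-- The subgroup generated by the pairs of an alternating sum over a set with at most `m` elements
and its weighted multiple. -/
noncomputable def PM (C : Finset V → Prop) (wf : List V → ℤ) (m : ℕ) :
    AddSubgroup (H.obj (GrpCat.of s.G) × H.obj (GrpCat.of s.G)) :=
  AddSubgroup.closure {y | ∃ (L : Type) (_ : Group L) (f : L →* s.G) (σ : Finset V)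
    (u : H.obj (GrpCat.of L)), s.Fix f σ ∧ C σ ∧ σ.card ≤ m ∧
      y = (bas H s f σ u, wt wf σ • bas H s f σ u)}

theorem WW_incl (C : Finset V → Prop) {y : H.obj (GrpCat.of (s.sub x).G)}
    (hy : y ∈ WW (s.sub x) α (fun τ => C (insert x τ))) :
    gm H (s.incl x) y ∈ WW s α C := by
  have h : WW (s.sub x) α (fun τ => C (insert x τ)) ≤
      (WW s α C).comap (gm H (s.incl x)) := by
    apply (AddSubgroup.closure_le _).mpr
    rintro y ⟨L, i, f, σ, u, h1, h2, h3, rfl⟩
    refine AddSubgroup.subset_closure ⟨L, i, (s.incl x).comp f, insert x σ, u, ?_, h2, h3, ?_⟩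
    · intro l
      refine ⟨?_, ?_⟩
      · have h4 := (h1 l).1
        change s.e (insert x (σ : Set V)) (f l).left = (f l).left at h4
        rw [Finset.coe_insert]
        exact h4
      · intro v hv
        rcases Finset.mem_insert.mp hv with rfl | hv
        · exact (f l).right.2
        · exact (h1 l).2 v hv
    · exact (gm_comp H (s.incl x) f u).symm
  exact h hy

theorem sum_yy' (R σ : Finset V) (hR : ∀ x ∈ R, Sys.rep Γ x = x)
    (hσ : ∀ v ∈ σ, Sys.rep Γ v ∈ R) (g : V → ℤ) :
    ∑ x ∈ R, ∑ a ∈ Sys.yy (Γ := Γ) x σ, g a.1 = ∑ v ∈ σ, g v := by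
  rw [← Finset.sum_fiberwise_of_maps_to hσ]
  apply Finset.sum_congr rfl
  intro x hx
  unfold Sys.yy
  rw [Finset.sum_subtype_eq_sum_filter (f := g)]
  apply Finset.sum_congr _ fun _ _ => rfl
  ext v
  rw [Finset.mem_filter, Finset.mem_filter, Sys.rep_eq_iff (hR x hx)]

/-- The transfers of an element of `PM`. -/
theorem exists_res (hH : InnTriv H) (C : Finset V → Prop)
    (hC : ∀ (γ : Γ) (σ : Finset V), C σ → C (σ.map ⟨fun v => γ • v, MulAction.injective γ⟩))
    (wf : List V → ℤ) (hw : ∀ (γ : Γ) (l : List V), wf (l.map (fun v => γ • v)) = wf l)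
    (M : V → Type w) [∀ x, AddCommGroup (M x)]
    (Φ : ∀ x : V, E.obj (GrpCat.of s.G) →+ M x)
    (ι : ∀ x : V, E.obj (GrpCat.of (s.sub x).G) →+ M x)
    (hΦ : ∀ x, IsTrI s x E (Φ x) (ι x)) (m : ℕ)
    (z : H.obj (GrpCat.of s.G) × H.obj (GrpCat.of s.G)) (hz : z ∈ PM H s C wf (m + 1)) :
    ∃ (R₀ : Finset V) (v : ∀ x : V, H.obj (GrpCat.of (s.sub x).G) ×
        H.obj (GrpCat.of (s.sub x).G)), (∀ x ∈ R₀, Sys.rep Γ x = x) ∧
      (∀ x, Φ x ((α.app (GrpCat.of s.G)).hom z.1) =
        ι x ((α.app (GrpCat.of (s.sub x).G)).hom (v x).1)) ∧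
      (∀ x, v x ∈ PM H (s.sub x) (fun τ => C (insert x τ)) (fun l => wf (x :: l)) m) ∧
      ∀ R : Finset V, R₀ ⊆ R → (∀ x ∈ R, Sys.rep Γ x = x) →
        z.2 = wf [] • gm H (ee s) z.1 + ∑ x ∈ R, gm H (s.incl x) (v x).2 := by
  unfold PM at hz
  induction hz using AddSubgroup.closure_induction with
  | mem y hy =>
    obtain ⟨L, _, f, σ, u, hf, hσ, hm, rfl⟩ := hy
    refine ⟨σ.image (Sys.rep Γ), fun x => ∑ a ∈ Sys.yy (Γ := Γ) x σ, (cur H s x f σ u a,
      wt (fun l => wf (x :: l)) ((σ.erase a.1).map (Sys.tm x a)) • cur H s x f σ u a),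
      ?_, fun x => ?_, fun x => ?_, ?_⟩
    · intro x hx
      obtain ⟨v, _, rfl⟩ := Finset.mem_image.mp hx
      exact Sys.rep_rep v
    · rw [Prod.fst_sum]
      exact tr_bas s x α (hΦ x) hf u
    · apply AddSubgroup.sum_mem
      intro a ha
      rw [Sys.mem_yy] at ha
      have hcard : ((σ.erase a.1).map (Sys.tm x a)).card ≤ m := by
        rw [Finset.card_map, Finset.card_erase_of_mem ha]
        omega
      have hCx : C (insert x ((σ.erase a.1).map (Sys.tm x a))) := by
        have h1 : insert x ((σ.erase a.1).map (Sys.tm x a)) = σ.map (Sys.tm x a) := by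
          have h2 : Sys.tm x a a.1 = x := by
            change (Sys.tt x a)⁻¹ • a.1 = x
            rw [inv_smul_eq_iff, Sys.tt_smul]
          have h3 : insert x ((σ.erase a.1).map (Sys.tm x a)) =
              insert (Sys.tm x a a.1) ((σ.erase a.1).map (Sys.tm x a)) := by rw [h2]
          rw [h3, ← Finset.map_insert, Finset.insert_erase ha]
        rw [h1]
        exact hC _ σ hσ
      have hfix := s.fix_lbl x hf ha (Finset.erase_subset a.1 σ)
      unfold cur
      rw [smul_sub, ← Prod.mk_sub_mk]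
      apply AddSubgroup.sub_mem
      · exact AddSubgroup.subset_closure ⟨L, inferInstance, _, _, u, hfix, hCx, hcard, rfl⟩
      · exact AddSubgroup.subset_closure
          ⟨L, inferInstance, _, _, u, s.fix_kill x hfix, hCx, hcard, rfl⟩
    · intro R hR hR'
      change wt wf σ • bas H s f σ u = wf [] • gm H (ee s) (bas H s f σ u) + _
      rw [ee_bas H s hf]
      have h0 : ∀ x ∈ R, gm H (s.incl x) (∑ a ∈ Sys.yy (Γ := Γ) x σ, (cur H s x f σ u a,
          wt (fun l => wf (x :: l)) ((σ.erase a.1).map (Sys.tm x a)) •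
            cur H s x f σ u a)).2 = (∑ a ∈ Sys.yy (Γ := Γ) x σ,
              wt (fun l => wf (a.1 :: l)) (σ.erase a.1)) • bas H s f σ u := by
        intro x _
        rw [Prod.snd_sum, map_sum, Finset.sum_smul]
        apply Finset.sum_congr rfl
        intro a ha
        rw [Sys.mem_yy] at ha
        rw [map_zsmul, incl_cur s x hH hf u ha, wt_map]
        congr 2
        funext l
        rw [← hw (Sys.tt x a)⁻¹ (a.1 :: l), List.map_cons]
        have h2 : (Sys.tt (Γ := Γ) x a)⁻¹ • a.1 = x := by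
          rw [inv_smul_eq_iff, Sys.tt_smul]
        rw [h2]
        rfl
      rw [Finset.sum_congr rfl h0, ← Finset.sum_smul, sum_yy' R σ hR'
        (fun v hv => hR (Finset.mem_image_of_mem _ hv))
        (fun v => wt (fun l => wf (v :: l)) (σ.erase v))]
      by_cases hσ0 : σ = ∅
      · subst hσ0
        rw [if_pos rfl, wt_empty, Finset.sum_empty, zero_smul, add_zero]
      · rw [if_neg hσ0, smul_zero, zero_add, ← wt_eq wf hσ0]
  | zero =>
    refine ⟨∅, fun _ => 0, fun x hx => absurd hx (Finset.notMem_empty x),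
      fun x => ?_, fun x => AddSubgroup.zero_mem _, ?_⟩
    · rw [Prod.fst_zero, Prod.fst_zero, map_zero, map_zero, map_zero, map_zero]
    · intro R _ _
      simp only [Prod.snd_zero, Prod.fst_zero, map_zero, Finset.sum_const_zero, smul_zero,
        add_zero]
  | add y y' _ _ hy hy' =>
    obtain ⟨R₁, v₁, a1, a2, a3, a4⟩ := hy
    obtain ⟨R₂, v₂, b1, b2, b3, b4⟩ := hy'
    refine ⟨R₁ ∪ R₂, fun x => v₁ x + v₂ x, ?_, fun x => ?_, fun x => ?_, ?_⟩
    · intro x hx
      rcases Finset.mem_union.mp hx with h | h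
      · exact a1 x h
      · exact b1 x h
    · rw [Prod.fst_add, Prod.fst_add, map_add, map_add, map_add, map_add, a2, b2]
    · exact AddSubgroup.add_mem _ (a3 x) (b3 x)
    · intro R hR hR'
      have h1 := a4 R (Finset.subset_union_left.trans hR) hR'
      have h2 := b4 R (Finset.subset_union_right.trans hR) hR'
      rw [Prod.snd_add, Prod.fst_add, h1, h2, map_add, smul_add]
      have h3 : ∑ x ∈ R, gm H (s.incl x) (v₁ x + v₂ x).2 =
          ∑ x ∈ R, gm H (s.incl x) (v₁ x).2 + ∑ x ∈ R, gm H (s.incl x) (v₂ x).2 := by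
        rw [← Finset.sum_add_distrib]
        apply Finset.sum_congr rfl
        intro x _
        rw [Prod.snd_add, map_add]
      rw [h3]
      abel
  | neg y _ hy =>
    obtain ⟨R₁, v₁, a1, a2, a3, a4⟩ := hy
    refine ⟨R₁, fun x => - v₁ x, a1, fun x => ?_, fun x => AddSubgroup.neg_mem _ (a3 x), ?_⟩
    · rw [Prod.fst_neg, Prod.fst_neg, map_neg, map_neg, map_neg, map_neg, a2]
    · intro R hR hR'
      have h1 := a4 R hR hR'
      rw [Prod.snd_neg, Prod.fst_neg, h1, map_neg, smul_neg, neg_add]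
      congr 1
      rw [← Finset.sum_neg_distrib]
      apply Finset.sum_congr rfl
      intro x _
      rw [Prod.snd_neg, map_neg]

/-- The part of empty support. -/
theorem ee_mem (C : Finset V → Prop) (wf : List V → ℤ) (m : ℕ)
    {z : H.obj (GrpCat.of s.G) × H.obj (GrpCat.of s.G)} (hz : z ∈ PM H s C wf m)
    (h0 : (α.app (GrpCat.of s.G)).hom z.1 = 0) : gm H (ee s) z.1 ∈ WW s α C := by
  have h1 : gm H (ee s) z.1 = 0 ∨ C ∅ := by
    clear h0
    unfold PM at hz
    induction hz using AddSubgroup.closure_induction with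
    | mem y hy =>
      obtain ⟨L, _, f, σ, u, hf, hσ, hm, rfl⟩ := hy
      rw [ee_bas H s hf]
      by_cases hσ0 : σ = ∅
      · right
        rw [← hσ0]
        exact hσ
      · left
        rw [if_neg hσ0]
    | zero =>
      left
      rw [Prod.fst_zero, map_zero]
    | add y y' _ _ hy hy' =>
      rcases hy with h | h
      · rcases hy' with h' | h'
        · left
          rw [Prod.fst_add, map_add, h, h', add_zero]
        · exact Or.inr h'
      · exact Or.inr h
    | neg y _ hy =>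
      rcases hy with h | h
      · left
        rw [Prod.fst_neg, map_neg, h, neg_zero]
      · exact Or.inr h
  rcases h1 with h | h
  · rw [h]
    exact AddSubgroup.zero_mem _
  · refine AddSubgroup.subset_closure ⟨s.G, inferInstance, ee s, ∅, z.1, ?_, h, h0, rfl⟩
    intro l
    unfold ee
    rw [s.cutT_apply (MonoidHom.id s.G) _ (s.smul_empty' (MonoidHom.id s.G))]
    refine ⟨?_, fun v hv => absurd hv (Finset.notMem_empty v)⟩
    change s.e _ (s.e _ _) = s.e _ _
    rw [s.inter, Set.inter_self]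

theorem PM_zero (C : Finset V → Prop) (wf : List V → ℤ)
    {z : H.obj (GrpCat.of s.G) × H.obj (GrpCat.of s.G)} (hz : z ∈ PM H s C wf 0) :
    z.2 = wf [] • gm H (ee s) z.1 := by
  unfold PM at hz
  induction hz using AddSubgroup.closure_induction with
  | mem y hy =>
    obtain ⟨L, _, f, σ, u, hf, hσ, hm, rfl⟩ := hy
    have hσ0 : σ = ∅ := Finset.card_eq_zero.mp (Nat.le_zero.mp hm)
    subst hσ0
    change wt wf ∅ • bas H s f ∅ u = wf [] • gm H (ee s) (bas H s f ∅ u)
    rw [ee_bas H s hf, if_pos rfl, wt_empty]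
  | zero => rw [Prod.snd_zero, Prod.fst_zero, map_zero, smul_zero]
  | add y y' _ _ hy hy' => rw [Prod.snd_add, Prod.fst_add, hy, hy', map_add, smul_add]
  | neg y _ hy => rw [Prod.snd_neg, Prod.fst_neg, hy, map_neg, smul_neg]

end Pool.Agent.Y483.PI
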