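import Pool.Agent.Y483.PI.Ind

/-!
The integral kernel formula for systems of supports.
-/

namespace Pool.Agent.Y483.PI

open Pool.Agent.Y483 Pool.Agent.Y483.PW CategoryTheory Pointwise
open scoped Classical

universe w

theorem main_ind {N V : Type} [Group N] {H E : GrpCat.{0} ⥤ AddCommGrpCat.{w}}
    (hH : InnTriv H) (hE : HasPTI E) (α : H ⟶ E) (m : ℕ) :
    ∀ (Γ : Type) [Group Γ] [MulAction Γ V] (s : Sys Γ N V) (C : Finset V → Prop)
      (_ : ∀ (γ : Γ) (σ : Finset V), C σ → C (σ.map ⟨fun v => γ • v, MulAction.injective γ⟩))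
      (wf : List V → ℤ) (_ : ∀ (γ : Γ) (l : List V), wf (l.map (fun v => γ • v)) = wf l)
      (z : H.obj (GrpCat.of s.G) × H.obj (GrpCat.of s.G)), z ∈ PM H s C wf m →
        (α.app (GrpCat.of s.G)).hom z.1 = 0 → z.2 ∈ WW s α C := by
  induction m with
  | zero =>
    intro Γ _ _ s C hC wf hw z hz h0
    rw [PM_zero s C wf hz]
    exact AddSubgroup.zsmul_mem _ (ee_mem s α C wf 0 hz h0) _
  | succ m ih =>
    intro Γ _ _ s C hC wf hw z hz h0
    have hex : ∀ x : V, ∃ (M : Type w) (_ : AddCommGroup M) (Φ : E.obj (GrpCat.of s.G) →+ M)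
        (ι : E.obj (GrpCat.of (s.sub x).G) →+ M), Function.Injective ι ∧ IsTrI s x E Φ ι :=
      fun x => hE s.G (MulAction.orbit Γ x) (s.sub x).G (s.pairC x)
    choose M iM Φ ι hι hΦ using hex
    obtain ⟨R, v, hR, h1, h2, h3⟩ := exists_res s α hH C hC wf hw M Φ ι hΦ m z hz
    rw [h3 R subset_rfl hR]
    apply AddSubgroup.add_mem
    · exact AddSubgroup.zsmul_mem _ (ee_mem s α C wf (m + 1) hz h0) _
    · apply AddSubgroup.sum_mem
      intro x _
      apply WW_incl s x α C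
      have h4 : (α.app (GrpCat.of (s.sub x).G)).hom (v x).1 = 0 := by
        apply hι x
        rw [← h1, h0, map_zero, map_zero]
      refine ih (MulAction.stabilizer Γ x) (s.sub x) (fun τ => C (insert x τ)) ?_
        (fun l => wf (x :: l)) ?_ (v x) (h2 x) h4
      · intro γ σ hσ
        have h6 := hC γ.1 _ hσ
        rw [Finset.map_insert] at h6
        have h7 : (⟨fun v => γ.1 • v, MulAction.injective γ.1⟩ : V ↪ V) x = x := γ.2
        rw [h7] at h6
        exact h6
      · intro γ l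
        have h5 := hw γ.1 (x :: l)
        rw [List.map_cons] at h5
        have h7 : γ.1 • x = x := γ.2
        rw [h7] at h5
        exact h5

variable {Γ N V : Type} [Group Γ] [Group N] [MulAction Γ V]

theorem cut_supG (s : Sys Γ N V) (σ : Finset V) :
    s.cutT (s.supG σ).subtype (σ : Set V) = (s.supG σ).subtype := by
  have hf : s.Fix (s.supG σ).subtype σ := fun l v hv => l.2.2 v hv
  ext1 l
  rw [s.cutT_apply _ _ (hf.smul s subset_rfl)]
  apply SemidirectProduct.ext
  · exact l.2.1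
  · rfl

theorem PM_mono {H : GrpCat.{0} ⥤ AddCommGrpCat.{w}} (s : Sys Γ N V) (C : Finset V → Prop)
    (wf : List V → ℤ) {m m' : ℕ} (h : m ≤ m') : PM H s C wf m ≤ PM H s C wf m' := by
  apply AddSubgroup.closure_mono
  rintro y ⟨L, i, f, σ, u, h1, h2, h3, h4⟩
  exact ⟨L, i, f, σ, u, h1, h2, h3.trans h, h4⟩

/-- **The integral kernel formula.** -/
theorem kernel {H E : GrpCat.{0} ⥤ AddCommGrpCat.{w}} (hH : InnTriv H) (hE : HasPTI E)
    (α : H ⟶ E) (s : Sys Γ N V) (C : Set (Finset V)) (hC : IsFam Γ C) (q : ℕ)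
    (hq : ∀ σ ∈ C, permNo Γ σ ∣ q) (x : H.obj (GrpCat.of s.G))
    (hx : x ∈ gen H s C) (h0 : (α.app (GrpCat.of s.G)).hom x = 0) :
    q • x ∈ genKer α s C := by
  change x ∈ ⨆ σ ∈ C, im H (s.supG σ) at hx
  change q • x ∈ ⨆ σ ∈ C, imKer α (s.supG σ)
  obtain ⟨wf, hw, hwq⟩ := exists_wt (Γ := Γ) C q hq
  have h1 : ∃ m, ((x, (q : ℤ) • x) : H.obj (GrpCat.of s.G) × H.obj (GrpCat.of s.G)) ∈
      PM H s (fun σ => σ ∈ C) wf m := by
    clear h0
    have hx2 : x ∈ AddSubgroup.closure (⋃ σ ∈ C, (im H (s.supG σ) : Set _)) := by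
      refine (iSup₂_le ?_ : (⨆ σ ∈ C, im H (s.supG σ)) ≤ _) hx
      intro σ hσ y hy
      exact AddSubgroup.subset_closure (Set.mem_biUnion hσ hy)
    clear hx
    induction hx2 using AddSubgroup.closure_induction with
    | mem y hy =>
      obtain ⟨σ, hσ, u, rfl⟩ := Set.mem_iUnion₂.mp hy
      refine ⟨σ.card, ?_⟩
      have hf : s.Fix (s.supG σ).subtype σ := fun l v hv => l.2.2 v hv
      have e : gm H (s.supG σ).subtype u =
          ∑ U ∈ σ.powerset, bas H s (s.supG σ).subtype U u := by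
        conv_lhs => rw [← cut_supG s σ]
        exact alt_inv σ (fun U => gm H (s.cutT (s.supG σ).subtype (U : Set V)) u)
      rw [e, Finset.smul_sum]
      have e2 : ((∑ U ∈ σ.powerset, bas H s (s.supG σ).subtype U u,
          ∑ U ∈ σ.powerset, (q : ℤ) • bas H s (s.supG σ).subtype U u) :
          H.obj (GrpCat.of s.G) × H.obj (GrpCat.of s.G)) =
          ∑ U ∈ σ.powerset, (bas H s (s.supG σ).subtype U u,
            (q : ℤ) • bas H s (s.supG σ).subtype U u) := by
        apply Prod.ext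
        · rw [Prod.fst_sum]
        · rw [Prod.snd_sum]
      rw [e2]
      apply AddSubgroup.sum_mem
      intro U hU
      have hU' := Finset.mem_powerset.mp hU
      have hUC : U ∈ C := hC.sub σ hσ U hU'
      refine AddSubgroup.subset_closure ⟨_, inferInstance, (s.supG σ).subtype, U, u,
        fun l v hv => hf l v (hU' hv), hUC, Finset.card_le_card hU', ?_⟩
      rw [hwq U hUC]
    | zero => exact ⟨0, by rw [smul_zero]; exact AddSubgroup.zero_mem _⟩
    | add y y' _ _ hy hy' =>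
      obtain ⟨m, hm⟩ := hy
      obtain ⟨m', hm'⟩ := hy'
      refine ⟨max m m', ?_⟩
      have h2 := AddSubgroup.add_mem _ (PM_mono s _ wf (le_max_left m m') hm)
        (PM_mono s _ wf (le_max_right m m') hm')
      rw [Prod.mk_add_mk, ← smul_add] at h2
      exact h2
    | neg y _ hy =>
      obtain ⟨m, hm⟩ := hy
      refine ⟨m, ?_⟩
      have h2 := AddSubgroup.neg_mem _ hm
      rw [Prod.neg_mk, ← smul_neg] at h2
      exact h2
  obtain ⟨m, hm⟩ := h1
  have h2 := main_ind hH hE α m Γ s (fun σ => σ ∈ C) (fun γ σ hσ => hC.inv σ hσ γ) wf hw _ hm h0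
  have h3 : WW s α (fun σ => σ ∈ C) ≤ ⨆ σ ∈ C, imKer α (s.supG σ) := by
    apply (AddSubgroup.closure_le _).mpr
    rintro y ⟨L, _, f, σ, u, hf, hσ, hu, rfl⟩
    refine AddSubgroup.mem_iSup_of_mem σ (AddSubgroup.mem_iSup_of_mem hσ ?_)
    refine ⟨gm H (f.codRestrict (s.supG σ) hf) u, ?_, ?_⟩
    · change (α.app (GrpCat.of (s.supG σ))).hom (gm H (f.codRestrict (s.supG σ) hf) u) = 0
      rw [gm_nat, hu, map_zero]
    · rw [← gm_comp]
      rfl
  have h4 := h3 h2
  change ((q : ℤ) • x) ∈ _ at h4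
  rwa [natCast_zsmul] at h4

theorem kerFormula {E : GrpCat.{0} ⥤ AddCommGrpCat.{w}} (hE : HasPTI E) (s : Sys Γ N V)
    (C : Set (Finset V)) (hC : IsFam Γ C) (q : ℕ) (hq : ∀ σ ∈ C, permNo Γ σ ∣ q) :
    KerFormula E s C q :=
  fun _ hH α x hx h0 => kernel hH hE α s C hC q hq x hx h0

end Pool.Agent.Y483.PI
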